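import Pool.Agent.H73Z.Junta.Four

/-! Resampling low-influence coordinates outside two disjoint blocks, and the choice of a good
partition of the coordinates into three blocks. -/

set_option autoImplicit false
set_option linter.unusedSectionVars false

namespace Pool.Agent.H73Z.Junta

open Finset Real

variable {ι : Type} [Fintype ι] [DecidableEq ι]

/-- average local excess of the fibres over a block -/
noncomputable def Del (g : (ι → Bool) → ℝ) (U : Finset ι) : ℝ := Ex fun x => mm (res U x g)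

lemma Del_nonneg {g : (ι → Bool) → ℝ} (hg : Is01 g) (U : Finset ι) : 0 ≤ Del g U :=
  Ex_nonneg fun x => mm_nonneg (hg.res U x)

open Classical in
/-- the coordinates of `Q` that are influential in the fibre of `x` over `U` -/
noncomputable def Yset (g : (ι → Bool) → ℝ) (Q : Finset ι) (τ : ℝ) (U : Finset ι)
    (x : ι → Bool) : Finset ι := Q.filter fun j => τ * den U g x < den U (ed g j) x

lemma dep_Yset (g : (ι → Bool) → ℝ) (Q : Finset ι) (τ : ℝ) (U : Finset ι) :
    Dep U (Yset g Q τ U) := by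
  intro x y
  simp only [Yset, dep_den U _ x y]

lemma Yset_subset (g : (ι → Bool) → ℝ) (Q : Finset ι) (τ : ℝ) (U : Finset ι) (x : ι → Bool) :
    Yset g Q τ U x ⊆ Q := by
  classical
  exact filter_subset _ _

lemma card_eq_sum_ite {Q Y : Finset ι} (h : Y ⊆ Q) :
    (Y.card : ℝ) = ∑ j ∈ Q, if j ∈ Y then 1 else 0 := by
  rw [sum_ite_mem, inter_eq_right.2 h]
  simp

lemma Z_le {g : (ι → Bool) → ℝ} (hg : Is01 g) {Q U W : Finset ι} (hU : Disjoint U Q)
    (hW : Disjoint W Q) {τ : ℝ} (hτ0 : 0 < τ) (hτ : τ ≤ 1 / 2) :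
    Ex (fun x => g x * ((Yset g Q τ U x \ Yset g Q τ W x).card : ℝ)) ≤
      6 / τ * (Del g U + Del g W) := by
  have h6 : 6 ≤ 6 / τ := by
    rw [le_div_iff₀ hτ0]
    linarith
  have h1 : ∀ j ∈ Q, Ex (fun x => g x * if j ∈ Yset g Q τ U x \ Yset g Q τ W x then 1 else 0) ≤
      6 / τ * (Ex (fun x => loc (res U x g) j) + Ex fun x => loc (res W x g) j) := by
    intro j hj
    have hjU : j ∉ U := fun e => disjoint_left.1 hU e hj
    have hjW : j ∉ W := fun e => disjoint_left.1 hW e hj
    have a1 : Ex (fun x => g x * if j ∈ Yset g Q τ U x \ Yset g Q τ W x then 1 else 0) ≤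
        Ex (fun x => g x * if j ∈ Yset g Q τ U x then 1 else 0) -
        Ex (fun x => ed g j x * if j ∈ Yset g Q τ U x then 1 else 0) +
        Ex (fun x => ed g j x * if j ∈ Yset g Q τ W x then 0 else 1) := by
      rw [← Ex_sub, ← Ex_add]
      refine Ex_mono fun x => ?_
      have b1 := hg.ed_le j x
      have b2 := (hg.ed j).nonneg x
      by_cases c1 : j ∈ Yset g Q τ U x <;> by_cases c2 : j ∈ Yset g Q τ W x <;>
        simp [c1, c2] <;> linarith
    have dU : Dep U (fun x => if j ∈ Yset g Q τ U x then (1 : ℝ) else 0) :=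
      fun x y => by simp only [dep_Yset g Q τ U x y]
    have dW : Dep W (fun x => if j ∈ Yset g Q τ W x then (0 : ℝ) else 1) :=
      fun x y => by simp only [dep_Yset g Q τ W x y]
    rw [← tower_mul dU g, ← tower_mul dU (ed g j), ← tower_mul dW (ed g j), ← Ex_sub] at a1
    rw [mul_add, ← Ex_mul, ← Ex_mul]
    refine a1.trans (add_le_add (Ex_mono fun x => ?_) (Ex_mono fun x => ?_))
    · have l0 := loc_nonneg (hg.res U x) j
      split_ifs with c
      · have c' : τ * den U g x < den U (ed g j) x := by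
          classical
          exact (mem_filter.1 c).2
        have e1 := bd_res_of_not_mem hjU g x
        have e2 : Ex (res U x g) = den U g x := rfl
        have n1 := den_nonneg (hg.ed j).nonneg U x
        rcases le_total (bd (res U x g) j) (Ex (res U x g) / 2) with d | d
        · have := bd_le_loc (hg.res U x) d
          rw [e1] at this
          rw [div_mul_eq_mul_div, le_div_iff₀ hτ0]
          nlinarith
        · have := sub_bd_le_loc (hg.res U x) d
          rw [e1, e2] at this
          nlinarith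
      · simp only [mul_zero, sub_zero]
        positivity
    · have l0 := loc_nonneg (hg.res W x) j
      split_ifs with c
      · simp only [mul_zero]
        positivity
      · have c' : den W (ed g j) x ≤ τ * den W g x := by
          classical
          by_contra hn
          exact c (mem_filter.2 ⟨hj, not_le.1 hn⟩)
        have e1 := bd_res_of_not_mem hjW g x
        have e2 : Ex (res W x g) = den W g x := rfl
        have n1 := den_nonneg hg.nonneg W x
        have := bd_le_loc (hg.res W x) (i := j) (by rw [e1, e2]; nlinarith)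
        rw [e1] at this
        nlinarith
  have h2 : Ex (fun x => g x * ((Yset g Q τ U x \ Yset g Q τ W x).card : ℝ)) =
      ∑ j ∈ Q, Ex (fun x => g x * if j ∈ Yset g Q τ U x \ Yset g Q τ W x then 1 else 0) := by
    rw [← Ex_sum]
    refine Ex_congr fun x => ?_
    rw [card_eq_sum_ite (sdiff_subset.trans (Yset_subset g Q τ U x)), mul_sum]
  rw [h2]
  refine (sum_le_sum h1).trans ?_
  rw [← mul_sum]
  refine mul_le_mul_of_nonneg_left ?_ (by positivity)
  simp only [Del, mm]
  rw [Ex_sum, Ex_sum, ← sum_add_distrib]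
  exact sum_le_sum_of_subset_of_nonneg (subset_univ _) fun j _ _ =>
    add_nonneg (Ex_nonneg fun x => loc_nonneg (hg.res U x) j)
      (Ex_nonneg fun x => loc_nonneg (hg.res W x) j)

lemma mem_Yset_le {g : (ι → Bool) → ℝ} (hg : Is01 g) (Q W : Finset ι) {τ : ℝ} (hτ0 : 0 < τ)
    (j : ι) : Ex (fun y => g y * if j ∈ Yset g Q τ W y then 1 else 0) ≤ bd g j / τ := by
  have dW : Dep W (fun x => if j ∈ Yset g Q τ W x then (1 : ℝ) else 0) :=
    fun x y => by simp only [dep_Yset g Q τ W x y]
  rw [← tower_mul dW g, bd, ← Ex_den W (ed g j), ← Ex_div]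
  refine Ex_mono fun x => ?_
  have n1 := den_nonneg (hg.ed j).nonneg W x
  split_ifs with c
  · have c' : τ * den W g x < den W (ed g j) x := by
      classical
      exact (mem_filter.1 c).2
    rw [le_div_iff₀ hτ0]
    linarith
  · simp only [mul_zero]
    positivity

lemma bad_le {g : (ι → Bool) → ℝ} (hg : Is01 g) (hμ : 0 < Ex g) {Q U W : Finset ι}
    (hUW : Disjoint U W) (hU : Disjoint U Q) (hW : Disjoint W Q) {k : ℕ} (hk : 0 < k)
    {τ θ : ℝ} (hτ0 : 0 < τ) (hτ : τ ≤ 1 / 2) (hθ0 : 0 ≤ θ) (hθ : 24 * k * exp k * θ ≤ τ ^ 3)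
    (hQ : ∀ j ∈ Q, bd g j ≤ θ * Ex g) :
    Ex (fun x => g x * if (Yset g Q τ U x ∩ Yset g Q τ W x).Nonempty then 1 else 0) ≤
      8 * (exc g + Del g U + Del g W) / k := by
  classical
  have hk' : (1 : ℝ) ≤ k := by exact_mod_cast hk
  have he : 1 ≤ exp (k : ℝ) := one_le_exp (by linarith)
  have hE := exc_nonneg hg
  have hD1 := Del_nonneg hg U
  have hD2 := Del_nonneg hg W
  set L := exc g + Del g U + Del g W with hL
  set Y1 := Yset g Q τ U with hY1
  set Y2 := Yset g Q τ W with hY2
  let X : (ι → Bool) → (ι → Bool) → ℝ := fun x y => ((Y1 x ∩ Y2 y).card : ℝ) / (Y1 x).card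
  have hX0 : ∀ x y, 0 ≤ X x y := fun x y => by positivity
  have hX1 : ∀ x y, X x y ≤ 1 := fun x y =>
    div_le_one_of_le₀ (by exact_mod_cast card_le_card inter_subset_left) (by positivity)
  have dX1 : Dep U X := fun x y => by
    funext z
    simp only [X, hY1, dep_Yset g Q τ U x y]
  have dX2 : ∀ x, Dep W (X x) := fun x y z => by simp only [X, hY2, dep_Yset g Q τ W y z]
  set P := Ex (fun x => g x * if (Y1 x).Nonempty then 1 else 0) with hP
  set Z := Ex (fun x => g x * ((Y1 x \ Y2 x).card : ℝ)) with hZ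
  have hZle : Z ≤ 6 / τ * (Del g U + Del g W) := Z_le hg hU hW hτ0 hτ
  have hP0 : 0 ≤ P := Ex_nonneg fun x => mul_nonneg (hg.nonneg x) (by split_ifs <;> norm_num)
  have hWle : (Ex fun x => Ex fun y => g x * g y * X x y) / Ex g ≤ P * (θ / τ) := by
    rw [div_le_iff₀ hμ, hP, mul_assoc, ← Ex_mul']
    refine Ex_mono fun x => ?_
    have a1 : (Ex fun y => g x * g y * X x y) =
        g x * (Ex fun y => g y * ((Y1 x ∩ Y2 y).card : ℝ)) / (Y1 x).card := by
      rw [← Ex_mul, ← Ex_div]
      exact Ex_congr fun y => by simp only [X]; ring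
    have a2 : (Ex fun y => g y * ((Y1 x ∩ Y2 y).card : ℝ)) ≤ (Y1 x).card * (θ / τ * Ex g) := by
      have : (Ex fun y => g y * ((Y1 x ∩ Y2 y).card : ℝ)) =
          ∑ j ∈ Y1 x, Ex fun y => g y * if j ∈ Y2 y then 1 else 0 := by
        rw [← Ex_sum]
        refine Ex_congr fun y => ?_
        rw [← mul_sum, sum_ite_mem]
        simp
      rw [this, ← nsmul_eq_mul]
      refine sum_le_card_nsmul _ _ _ fun j hj => (mem_Yset_le hg Q W hτ0 j).trans ?_
      rw [div_mul_eq_mul_div]
      exact div_le_div_of_nonneg_right (hQ j (Yset_subset g Q τ U x hj)) hτ0.le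
    rw [a1]
    split_ifs with c
    · have c' : (0 : ℝ) < (Y1 x).card := by exact_mod_cast c.card_pos
      rw [div_le_iff₀ c']
      have := mul_le_mul_of_nonneg_left a2 (hg.nonneg x)
      linarith
    · rw [not_nonempty_iff_eq_empty] at c
      simp [c]
  have hθτ : θ / τ ≤ 1 / 4 := by
    rw [div_le_iff₀ hτ0]
    have b1 : τ ^ 3 ≤ τ := by
      have : τ ^ 2 ≤ 1 := by nlinarith
      nlinarith
    have b2 : 1 ≤ k * exp (k : ℝ) := by nlinarith
    nlinarith
  have hPle : P ≤ 12 / τ * L := by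
    have a1 := dv hg hμ hUW X dX1 dX2
    have a2 : (Ex fun x => Ex fun y => g x * g y * (exp (X x y) - 1)) ≤
        2 * Ex fun x => Ex fun y => g x * g y * X x y := by
      rw [← Ex_mul]
      refine Ex_mono fun x => ?_
      rw [← Ex_mul]
      refine Ex_mono fun y => ?_
      have b1 := abs_exp_sub_one_le (x := X x y) (by rw [abs_of_nonneg (hX0 x y)]; exact hX1 x y)
      rw [abs_of_nonneg (hX0 x y)] at b1
      have b2 := mul_le_mul_of_nonneg_left ((le_abs_self _).trans b1)
        (mul_nonneg (hg.nonneg x) (hg.nonneg y))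
      linarith
    have a3 : P ≤ Ex (fun x => g x * X x x) + Z := by
      rw [hZ, ← Ex_add]
      refine Ex_mono fun x => ?_
      rw [← mul_add]
      refine mul_le_mul_of_nonneg_left ?_ (hg.nonneg x)
      split_ifs with c
      · by_cases d : Y1 x ⊆ Y2 x
        · have c' : (0 : ℝ) < (Y1 x).card := by exact_mod_cast c.card_pos
          simp only [X, inter_eq_left.2 d, div_self c'.ne']
          simp
        · have : 0 < (Y1 x \ Y2 x).card := card_pos.2 (sdiff_nonempty.2 d)
          have : (1 : ℝ) ≤ (Y1 x \ Y2 x).card := by exact_mod_cast this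
          linarith [hX0 x x]
      · have := hX0 x x
        positivity
    have a4 := div_le_div_of_nonneg_right a2 hμ.le
    rw [mul_div_assoc] at a4
    have a5 : P * (θ / τ) ≤ P * (1 / 4) := mul_le_mul_of_nonneg_left hθτ hP0
    have a6 : 1 ≤ 6 / τ := by
      rw [le_div_iff₀ hτ0]
      linarith
    have a7 : 12 / τ * L = 2 * (6 / τ * exc g + 6 / τ * (Del g U + Del g W)) := by
      rw [hL]; ring
    nlinarith
  let N : ℝ := 1 + k / τ
  have hN0 : 0 < (k : ℝ) / τ := by positivity
  have hN : N ≤ 2 * k / τ := by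
    have : 1 ≤ (k : ℝ) / τ := by
      rw [le_div_iff₀ hτ0]
      linarith
    simp only [N]
    rw [mul_div_assoc]
    linarith
  let φ : (ι → Bool) → (ι → Bool) → ℝ := fun x y => if 1 ≤ N * X x y then k else 0
  have b1 := dv hg hμ hUW φ (fun x y => by
    funext z
    simp only [φ, dX1 x y]) (fun x y z => by simp only [φ, dX2 x y z])
  have b2 : (Ex fun x => Ex fun y => g x * g y * (exp (φ x y) - 1)) ≤
      exp k * N * Ex fun x => Ex fun y => g x * g y * X x y := by
    rw [← Ex_mul]
    refine Ex_mono fun x => ?_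
    rw [← Ex_mul]
    refine Ex_mono fun y => ?_
    have c1 : exp (φ x y) - 1 ≤ exp k * N * X x y := by
      have := hX0 x y
      simp only [φ]
      split_ifs with c
      · nlinarith
      · simp only [exp_zero, sub_self]
        positivity
    have c2 := mul_le_mul_of_nonneg_left c1 (mul_nonneg (hg.nonneg x) (hg.nonneg y))
    linarith
  have b3 := div_le_div_of_nonneg_right b2 hμ.le
  rw [mul_div_assoc] at b3
  have hL0 : 0 ≤ L := by linarith
  have b4 : exp k * N * (P * (θ / τ)) ≤ L := by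
    calc exp k * N * (P * (θ / τ)) ≤ exp k * (2 * k / τ) * (12 / τ * L * (θ / τ)) := by gcongr
      _ = (24 * k * exp k * θ) / τ ^ 3 * L := by field_simp; ring
      _ ≤ 1 * L := by
          gcongr
          rw [div_le_one (by positivity)]
          exact hθ
      _ = L := one_mul _
  have b5 := mul_le_mul_of_nonneg_left hWle (by positivity : 0 ≤ exp k * N)
  have b6 : Ex (fun x => g x * if (Y1 x ∩ Y2 x).Nonempty then 1 else 0) ≤
      Ex (fun x => g x * φ x x) / k + Z * (τ / k) := by
    rw [hZ, ← Ex_div, ← Ex_mul', ← Ex_add]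
    refine Ex_mono fun x => ?_
    rw [mul_div_assoc, mul_assoc, ← mul_add]
    refine mul_le_mul_of_nonneg_left ?_ (hg.nonneg x)
    have p0 : 0 ≤ φ x x := by simp only [φ]; split_ifs <;> positivity
    split_ifs with c
    · simp only [φ]
      split_ifs with d
      · rw [div_self (by positivity)]
        have : 0 ≤ ((Y1 x \ Y2 x).card : ℝ) * (τ / k) := by positivity
        linarith
      · push Not at d
        have c1 : (1 : ℝ) ≤ (Y1 x ∩ Y2 x).card := by exact_mod_cast c.card_pos
        have c2 : ((Y1 x \ Y2 x).card : ℝ) + (Y1 x ∩ Y2 x).card = (Y1 x).card := by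
          exact_mod_cast card_sdiff_add_card_inter _ _
        have c3 : (0 : ℝ) ≤ (Y1 x \ Y2 x).card := by positivity
        simp only [X] at d
        rw [← mul_div_assoc, div_lt_one (by linarith)] at d
        have c4 : (k : ℝ) / τ ≤ (Y1 x \ Y2 x).card := by
          simp only [N] at d
          nlinarith
        rw [div_le_iff₀ hτ0] at c4
        rw [zero_div, zero_add, ← mul_div_assoc, le_div_iff₀ (by positivity)]
        linarith
    · positivity
  have b7 : Z * (τ / k) ≤ 6 * L / k := by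
    calc Z * (τ / k) ≤ 6 / τ * (Del g U + Del g W) * (τ / k) := by gcongr
      _ = 6 * (Del g U + Del g W) / k := by field_simp
      _ ≤ 6 * L / k := by gcongr; linarith
  have b8 : Ex (fun x => g x * φ x x) / k ≤ 2 * L / k := by
    gcongr
    linarith
  have b9 : 8 * L / k = 2 * L / k + 6 * L / k := by ring
  linarith

lemma block {g : (ι → Bool) → ℝ} (hg : Is01 g) (hμ : 0 < Ex g) {Q U W : Finset ι}
    (hUW : Disjoint U W) (hU : Disjoint U Q) (hW : Disjoint W Q) {k : ℕ} (hk : 0 < k)
    {τ θ : ℝ} (hτ0 : 0 < τ) (hτ : τ ≤ 1 / 2) (hτ' : τ * exp k ≤ (1 / (k * 3 ^ k)) ^ 2)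
    (hθ0 : 0 ≤ θ) (hθ : 24 * k * exp k * θ ≤ τ ^ 3) (hQ : ∀ j ∈ Q, bd g j ≤ θ * Ex g) :
    Dv Q g ≤ 20 * (exc g + Del g U + Del g W) / k := by
  classical
  have hk' : (0 : ℝ) < k := by exact_mod_cast hk
  have hUWQ : Disjoint (U ∪ W) Q := disjoint_union_left.2 ⟨hU, hW⟩
  have key : ∀ R, R ⊆ U ∪ W → Disjoint R Q →
      Ex (fun x => Dv (Q \ Yset g Q τ R x) (res (U ∪ W) x g)) ≤ 12 * Del g R / k := by
    intro R hR hRQ
    have d1 : Dep R (fun x => Q \ Yset g Q τ R x) := fun x y => by
      simp only [dep_Yset g Q τ R x y]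
    rw [Ex_Dv_res (d1.mono hR) (fun x => hUWQ.mono_right sdiff_subset),
      ← Ex_Dv_res d1 (fun x => hRQ.mono_right sdiff_subset), Del, ← Ex_mul, ← Ex_div]
    refine Ex_mono fun x => fibre (hg.res R x) _ hk hτ hτ' fun j hj => ?_
    obtain ⟨h1, h2⟩ := mem_sdiff.1 hj
    rw [bd_res_of_not_mem (fun e => disjoint_left.1 hRQ e h1)]
    by_contra hn
    exact h2 (mem_filter.2 ⟨h1, not_le.1 hn⟩)
  have h1 := key U subset_union_left hU
  have h2 := key W subset_union_right hW
  have h3 := bad_le hg hμ hUW hU hW hk hτ0 hτ hθ0 hθ hQ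
  have d3 : Dep (U ∪ W) (fun x =>
      if (Yset g Q τ U x ∩ Yset g Q τ W x).Nonempty then (1 : ℝ) else 0) := fun x y => by
    simp only [(dep_Yset g Q τ U).mono subset_union_left x y,
      (dep_Yset g Q τ W).mono subset_union_right x y]
  rw [← tower_mul d3 g] at h3
  have h4 : Dv Q g = Ex fun x => Dv Q (res (U ∪ W) x g) :=
    (Ex_Dv_res (V := fun _ => Q) (fun _ _ => rfl) (fun _ => hUWQ) g).symm
  have h5 : Dv Q g ≤ Ex (fun x => den (U ∪ W) g x *
      if (Yset g Q τ U x ∩ Yset g Q τ W x).Nonempty then (1 : ℝ) else 0) +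
      (Ex (fun x => Dv (Q \ Yset g Q τ U x) (res (U ∪ W) x g)) +
       Ex (fun x => Dv (Q \ Yset g Q τ W x) (res (U ∪ W) x g))) := by
    rw [h4, ← Ex_add, ← Ex_add]
    refine Ex_mono fun x => ?_
    have n1 := Dv_nonneg (Q \ Yset g Q τ U x) (res (U ∪ W) x g)
    have n2 := Dv_nonneg (Q \ Yset g Q τ W x) (res (U ∪ W) x g)
    split_ifs with c
    · have : Dv Q (res (U ∪ W) x g) ≤ den (U ∪ W) g x := Dv_le (hg.res _ x) Q
      linarith
    · rw [mul_zero, zero_add]
      apply Dv_le_add
      rw [← sdiff_inter_distrib_right, not_nonempty_iff_eq_empty.1 c, sdiff_empty]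
  have hE := exc_nonneg hg
  have h6 : 20 * (exc g + Del g U + Del g W) / k = 8 * (exc g + Del g U + Del g W) / k +
      (12 * Del g U / k + 12 * Del g W / k) + 12 * exc g / k := by ring
  have h7 : 0 ≤ 12 * exc g / k := by positivity
  linarith

lemma exists_partition {g : (ι → Bool) → ℝ} (hg : Is01 g) :
    ∃ c : ι → Fin 3, ∑ l, Del g (univ.filter fun i => c i = l) ≤ 6 * exc g := by
  classical
  let R : (ι → Fin 3) → Fin 3 → Finset ι := fun c l => univ.filter fun i => c i = l
  let F : ι → Fin 3 → (ι → Fin 3) → ℝ := fun i l c => bd g i * log 2 - dl g i ((R c l).erase i)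
  have hsw : ∀ i l l', ∑ c : ι → Fin 3, (if c i = l' then F i l c else 0) =
      ∑ c : ι → Fin 3, (if c i = l then F i l c else 0) := by
    intro i l l'
    have hinv : Function.Involutive
        (fun c : ι → Fin 3 => Function.update c i (Equiv.swap l l' (c i))) := by
      intro c
      simp
    rw [← Equiv.sum_comp hinv.toPerm]
    refine sum_congr rfl fun c _ => ?_
    have e1 : (R (Function.update c i (Equiv.swap l l' (c i))) l).erase i = (R c l).erase i := by
      ext j
      by_cases hj : j = i <;> simp [R, hj]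
    simp only [Function.Involutive.coe_toPerm, Function.update_self, F, e1,
      Equiv.swap_apply_eq_iff, Equiv.swap_apply_right]
  have h1 : ∀ c l, Del g (R c l) = ∑ i, ∑ l' ∈ univ.erase l, if c i = l' then F i l c else 0 := by
    intro c l
    simp only [Del, mm]
    rw [Ex_sum]
    refine sum_congr rfl fun i _ => ?_
    rw [Ex_loc_res hg, sum_ite_eq]
    by_cases h : c i = l
    · simp [R, h]
    · have : i ∉ R c l := by simp [R, h]
      simp [F, h, this]
  have h2 : ∑ c : ι → Fin 3, ∑ l, Del g (R c l) ≤ ∑ _c : ι → Fin 3, 6 * exc g := by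
    have a1 : ∀ l, ∑ c : ι → Fin 3, Del g (R c l) =
        ∑ c : ι → Fin 3, 2 * ∑ i ∈ R c l, F i l c := by
      intro l
      simp only [h1]
      rw [sum_comm]
      have : ∀ c : ι → Fin 3, 2 * ∑ i ∈ R c l, F i l c =
          ∑ i, 2 * if c i = l then F i l c else 0 := by
        intro c
        rw [← mul_sum, sum_filter]
      simp only [this]
      rw [sum_comm (s := (univ : Finset (ι → Fin 3)))]
      refine sum_congr rfl fun i _ => ?_
      rw [sum_comm, ← mul_sum]
      simp only [hsw]
      simp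
    rw [sum_comm]
    simp only [a1]
    rw [sum_comm]
    refine sum_le_sum fun c _ => ?_
    have a2 : ∀ l, 2 * ∑ i ∈ R c l, F i l c ≤ 2 * exc g := fun l =>
      mul_le_mul_of_nonneg_left (exc_ge_sum hg (R c l)) (by norm_num)
    refine (sum_le_sum fun l _ => a2 l).trans ?_
    simp
    linarith
  obtain ⟨c, -, hc⟩ := exists_le_of_sum_le univ_nonempty h2
  exact ⟨c, hc⟩

lemma Dv_low {g : (ι → Bool) → ℝ} (hg : Is01 g) (hμ : 0 < Ex g) (K : Finset ι) {k : ℕ}
    (hk : 0 < k) {τ θ : ℝ} (hτ0 : 0 < τ) (hτ : τ ≤ 1 / 2)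
    (hτ' : τ * exp k ≤ (1 / (k * 3 ^ k)) ^ 2) (hθ0 : 0 ≤ θ) (hθ : 24 * k * exp k * θ ≤ τ ^ 3)
    (hK : ∀ j ∈ K, bd g j ≤ θ * Ex g) : Dv K g ≤ 300 * exc g / k := by
  obtain ⟨c, hc⟩ := exists_partition hg
  have hk' : (0 : ℝ) < k := by exact_mod_cast hk
  let R : Fin 3 → Finset ι := fun l => univ.filter fun i => c i = l
  have hd : ∀ l l', l ≠ l' → Disjoint (R l) (R l') := by
    intro l l' h
    rw [disjoint_left]
    intro i h1 h2
    exact h ((mem_filter.1 h1).2.symm.trans (mem_filter.1 h2).2)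
  have hb : ∀ a b l, a ≠ b → a ≠ l → b ≠ l →
      Dv (K ∩ R l) g ≤ 20 * (exc g + Del g (R a) + Del g (R b)) / k := by
    intro a b l h1 h2 h3
    exact block hg hμ (hd a b h1) ((hd a l h2).mono_right inter_subset_right)
      ((hd b l h3).mono_right inter_subset_right) hk hτ0 hτ hτ' hθ0 hθ
      fun j hj => hK j (mem_inter.1 hj).1
  have h0 := hb 1 2 0 (by decide) (by decide) (by decide)
  have h1 := hb 0 2 1 (by decide) (by decide) (by decide)
  have h2 := hb 0 1 2 (by decide) (by decide) (by decide)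
  have h3 := Dv_le_add (V := K) (V₁ := K ∩ R 0) (V₂ := K ∩ R 1 ∪ K ∩ R 2) (by
    intro j hj
    have : c j = 0 ∨ c j = 1 ∨ c j = 2 := by
      generalize c j = a
      revert a
      decide
    simpa [R, hj] using this) g
  have h4 := Dv_le_add (V := K ∩ R 1 ∪ K ∩ R 2) (Subset.refl _) g
  rw [Fin.sum_univ_three] at hc
  change Del g (R 0) + Del g (R 1) + Del g (R 2) ≤ _ at hc
  rw [le_div_iff₀ hk'] at h0 h1 h2 ⊢
  nlinarith

end Pool.Agent.H73Z.Junta
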