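import Pool.Agent.H562R2.Walsh

/-! Averages, restrictions and conditional densities on the discrete cube. -/

set_option autoImplicit false
set_option linter.unusedSectionVars false

namespace Pool.Agent.H73Z.Junta

open Finset Pool.Agent.H562R2

variable {ι : Type} [Fintype ι] [DecidableEq ι]

/-- uniform average over the cube -/
noncomputable def Ex (F : (ι → Bool) → ℝ) : ℝ := (∑ x, F x) / 2 ^ Fintype.card ι

/-- the point with coordinates in `U` taken from `x` and the others from `y` -/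
def mg (U : Finset ι) (x y : ι → Bool) : ι → Bool := fun i => if i ∈ U then x i else y i

/-- flip one coordinate -/
def fl (x : ι → Bool) (i : ι) : ι → Bool := Function.update x i (!x i)

/-- restriction -/
def res (U : Finset ι) (x : ι → Bool) (g : (ι → Bool) → ℝ) : (ι → Bool) → ℝ :=
  fun y => g (mg U x y)

/-- conditional density -/
noncomputable def den (U : Finset ι) (g : (ι → Bool) → ℝ) (x : ι → Bool) : ℝ := Ex (res U x g)

/-- zero-one valued -/
def Is01 (g : (ι → Bool) → ℝ) : Prop := ∀ x, g x = 0 ∨ g x = 1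

lemma two_pow_pos' : (0 : ℝ) < 2 ^ Fintype.card ι := by positivity

lemma Ex_const (c : ℝ) : Ex (fun _ : ι → Bool => c) = c := by
  simp [Ex]

lemma Ex_add (F G : (ι → Bool) → ℝ) : Ex (fun x => F x + G x) = Ex F + Ex G := by
  simp [Ex, sum_add_distrib, add_div]

lemma Ex_sub (F G : (ι → Bool) → ℝ) : Ex (fun x => F x - G x) = Ex F - Ex G := by
  simp [Ex, sum_sub_distrib, sub_div]

lemma Ex_mul (c : ℝ) (F : (ι → Bool) → ℝ) : Ex (fun x => c * F x) = c * Ex F := by
  simp [Ex, ← mul_sum, mul_div_assoc]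

lemma Ex_mul' (c : ℝ) (F : (ι → Bool) → ℝ) : Ex (fun x => F x * c) = Ex F * c := by
  simp only [mul_comm _ c, Ex_mul]

lemma Ex_div (c : ℝ) (F : (ι → Bool) → ℝ) : Ex (fun x => F x / c) = Ex F / c := by
  simp only [div_eq_mul_inv, Ex_mul']

lemma Ex_sum {κ : Type} (s : Finset κ) (F : κ → (ι → Bool) → ℝ) :
    Ex (fun x => ∑ k ∈ s, F k x) = ∑ k ∈ s, Ex (F k) := by
  simp only [Ex]
  rw [sum_comm, sum_div]

lemma Ex_mono {F G : (ι → Bool) → ℝ} (h : ∀ x, F x ≤ G x) : Ex F ≤ Ex G :=
  div_le_div_of_nonneg_right (sum_le_sum fun x _ => h x) two_pow_pos'.le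

lemma Ex_nonneg {F : (ι → Bool) → ℝ} (h : ∀ x, 0 ≤ F x) : 0 ≤ Ex F :=
  div_nonneg (sum_nonneg fun x _ => h x) two_pow_pos'.le

lemma Ex_congr {F G : (ι → Bool) → ℝ} (h : ∀ x, F x = G x) : Ex F = Ex G := by
  rw [funext h]

lemma Ex_comm (F : (ι → Bool) → (ι → Bool) → ℝ) :
    Ex (fun x => Ex fun y => F x y) = Ex (fun y => Ex fun x => F x y) := by
  simp only [Ex, ← sum_div]
  rw [sum_comm]

lemma Ex_pos {F : (ι → Bool) → ℝ} (h : ∀ x, 0 ≤ F x) {x : ι → Bool} (hx : 0 < F x) :
    0 < Ex F :=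
  div_pos (sum_pos' (fun x _ => h x) ⟨x, mem_univ _, hx⟩) two_pow_pos'

@[simp] lemma fl_fl (x : ι → Bool) (i : ι) : fl (fl x i) i = x := by
  simp [fl]

lemma fl_same (x : ι → Bool) (i : ι) : fl x i i = !x i := by simp [fl]

lemma fl_ne (x : ι → Bool) {i j : ι} (h : j ≠ i) : fl x i j = x j := by simp [fl, h]

lemma Ex_invol (σ : (ι → Bool) → (ι → Bool)) (hσ : ∀ x, σ (σ x) = x) (F : (ι → Bool) → ℝ) :
    Ex (fun x => F (σ x)) = Ex F := by
  simp only [Ex]
  congr 1
  exact Equiv.sum_comp (Function.Involutive.toPerm σ hσ) F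

lemma Ex_fl (i : ι) (F : (ι → Bool) → ℝ) : Ex (fun x => F (fl x i)) = Ex F :=
  Ex_invol (fun x => fl x i) (fun x => fl_fl x i) F

lemma Ex_swap (U : Finset ι) (ψ : (ι → Bool) → (ι → Bool) → ℝ) :
    Ex (fun x => Ex fun y => ψ (mg U x y) (mg U y x)) = Ex fun x => Ex fun y => ψ x y := by
  simp only [Ex, ← sum_div]
  congr 2
  rw [← Fintype.sum_prod_type', ← Fintype.sum_prod_type']
  have hinv : Function.Involutive
      (fun p : (ι → Bool) × (ι → Bool) => (mg U p.1 p.2, mg U p.2 p.1)) := by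
    intro p
    ext i <;> by_cases h : i ∈ U <;> simp [mg, h]
  exact Equiv.sum_comp hinv.toPerm (fun p => ψ p.1 p.2)

lemma Ex_mg (U : Finset ι) (G : (ι → Bool) → ℝ) :
    Ex (fun x => Ex fun y => G (mg U x y)) = Ex G := by
  rw [Ex_swap U (fun x _ => G x)]
  simp only [Ex_const]

@[simp] lemma mg_self (U : Finset ι) (x : ι → Bool) : mg U x x = x := by
  funext i
  simp [mg]

lemma mg_mg (U W : Finset ι) (x y z : ι → Bool) :
    mg U x (mg W y z) = mg (U ∪ W) (mg U x y) z := by
  funext i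
  by_cases h : i ∈ U <;> by_cases h' : i ∈ W <;> simp [mg, h, h']

lemma mg_mg_left {U W : Finset ι} (h : U ⊆ W) (x y z : ι → Bool) :
    mg U (mg W x y) z = mg U x z := by
  funext i
  by_cases h' : i ∈ U
  · simp [mg, h', h h']
  · simp [mg, h']

/-- `F` depends only on the coordinates in `U` -/
def Dep {β : Type} (U : Finset ι) (F : (ι → Bool) → β) : Prop := ∀ x y, F (mg U x y) = F x

lemma Dep.mono {β : Type} {U W : Finset ι} {F : (ι → Bool) → β} (h : Dep U F) (hUW : U ⊆ W) :
    Dep W F := by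
  intro x y
  rw [← h (mg W x y) x, mg_mg_left hUW, mg_self]

lemma Dep.fl {β : Type} {U : Finset ι} {F : (ι → Bool) → β} (h : Dep U F) {i : ι} (hi : i ∉ U)
    (x : ι → Bool) : F (fl x i) = F x := by
  rw [← h x (Junta.fl x i)]
  congr 1
  funext j
  by_cases hj : j ∈ U
  · have : j ≠ i := fun e => hi (e ▸ hj)
    simp [mg, hj, fl_ne x this]
  · simp [mg, hj]

lemma dep_res (U : Finset ι) (g : (ι → Bool) → ℝ) : Dep U (fun x => res U x g) := by
  intro x y
  funext z
  simp only [res, mg_mg_left (Subset.refl U)]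

lemma dep_den (U : Finset ι) (g : (ι → Bool) → ℝ) : Dep U (den U g) := by
  intro x y
  exact congrArg Ex (dep_res U g x y)

lemma tower (U : Finset ι) (Ψ : (ι → Bool) → (ι → Bool) → ℝ) (h : Dep U Ψ) :
    Ex (fun x => Ex fun y => Ψ x (mg U x y)) = Ex fun x => Ψ x x := by
  rw [← Ex_mg U (fun x => Ψ x x)]
  refine Ex_congr fun x => Ex_congr fun y => ?_
  rw [h x y]

lemma tower_mul {U : Finset ι} {F : (ι → Bool) → ℝ} (h : Dep U F) (g : (ι → Bool) → ℝ) :
    Ex (fun x => den U g x * F x) = Ex fun x => g x * F x := by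
  rw [← tower U (fun x y => g y * F x) (fun x y => by simp only [h x y])]
  refine Ex_congr fun x => ?_
  rw [Ex_mul']
  rfl

lemma Ex_den (U : Finset ι) (g : (ι → Bool) → ℝ) : Ex (den U g) = Ex g := Ex_mg U g

lemma den_empty (g : (ι → Bool) → ℝ) (x : ι → Bool) : den ∅ g x = Ex g := by
  simp only [den]
  congr 1

lemma den_univ (g : (ι → Bool) → ℝ) (x : ι → Bool) : den univ g x = g x := by
  have : res univ x g = fun _ => g x := by
    funext y
    simp only [res]
    congr 1
    funext i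
    simp [mg]
  rw [den, this, Ex_const]

lemma den_res (U W : Finset ι) (g : (ι → Bool) → ℝ) (x y : ι → Bool) :
    den W (res U x g) y = den (U ∪ W) g (mg U x y) := by
  simp only [den]
  congr 1
  funext z
  simp only [res, mg_mg]

lemma den_nonneg {g : (ι → Bool) → ℝ} (h : ∀ x, 0 ≤ g x) (U : Finset ι) (x : ι → Bool) :
    0 ≤ den U g x := Ex_nonneg fun _ => h _

lemma den_pos {g : (ι → Bool) → ℝ} (h : ∀ x, 0 ≤ g x) (U : Finset ι) {x : ι → Bool}
    (hx : 0 < g x) : 0 < den U g x :=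
  Ex_pos (fun _ => h _) (x := x) (by simpa [res] using hx)

lemma den_mono {g g' : (ι → Bool) → ℝ} (h : ∀ x, g x ≤ g' x) (U : Finset ι) (x : ι → Bool) :
    den U g x ≤ den U g' x := Ex_mono fun _ => h _

lemma mg_fl_left {U : Finset ι} {i : ι} (hi : i ∈ U) (x y : ι → Bool) :
    mg U (fl x i) y = fl (mg U x y) i := by
  funext j
  by_cases h : j = i
  · subst h
    simp [mg, hi, fl]
  · simp [mg, fl, h]

lemma mg_fl_right {U : Finset ι} {i : ι} (hi : i ∉ U) (x y : ι → Bool) :
    mg U x (fl y i) = fl (mg U x y) i := by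
  funext j
  by_cases h : j = i
  · subst h
    simp [mg, hi, fl]
  · simp [mg, fl, h]

lemma mg_fl_right' {U : Finset ι} {i : ι} (hi : i ∈ U) (x y : ι → Bool) :
    mg U x (fl y i) = mg U x y := by
  funext j
  by_cases h : j = i
  · subst h
    simp [mg, hi]
  · simp [mg, fl, h]

lemma den_avg {U : Finset ι} {i : ι} (hi : i ∉ U) (g : (ι → Bool) → ℝ) (x : ι → Bool) :
    den U g x = (den (insert i U) g x + den (insert i U) g (fl x i)) / 2 := by
  simp only [den]
  rw [← Ex_add]
  have h1 : Ex (res U x g) = Ex (fun y => (res U x g y + res U x g (fl y i)) / 2) := by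
    rw [Ex_div, Ex_add, Ex_fl i (res U x g)]
    ring
  rw [h1, Ex_div]
  congr 1
  refine Ex_congr fun y => ?_
  simp only [res]
  by_cases h : y i = x i
  · have e1 : mg U x y = mg (insert i U) x y := by
      funext j
      by_cases hj : j = i
      · subst hj; simp [mg, hi, h]
      · simp [mg, hj]
    rw [mg_fl_right hi, mg_fl_left (mem_insert_self i U), e1]
  · have e1 : mg U x (fl y i) = mg (insert i U) x y := by
      funext j
      by_cases hj : j = i
      · subst hj
        simp only [mg, hi, if_false, mem_insert_self, if_true, fl_same]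
        revert h
        cases x j <;> cases y j <;> simp
      · simp [mg, hj, fl]
    rw [mg_fl_left (mem_insert_self i U), ← e1, mg_fl_right hi, fl_fl, add_comm]

lemma Is01.nonneg {g : (ι → Bool) → ℝ} (h : Is01 g) (x : ι → Bool) : 0 ≤ g x := by
  rcases h x with h | h <;> rw [h]; norm_num

lemma Is01.le_one {g : (ι → Bool) → ℝ} (h : Is01 g) (x : ι → Bool) : g x ≤ 1 := by
  rcases h x with h | h <;> rw [h]; norm_num

lemma Is01.res {g : (ι → Bool) → ℝ} (h : Is01 g) (U : Finset ι) (x : ι → Bool) :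
    Is01 (res U x g) := fun _ => h _

lemma Is01.den_le_one {g : (ι → Bool) → ℝ} (h : Is01 g) (U : Finset ι) (x : ι → Bool) :
    den U g x ≤ 1 := by
  rw [← Ex_const (ι := ι) 1]
  exact Ex_mono fun _ => h.le_one _

/-- indicator of the points of the set whose neighbour in direction `i` is outside -/
def ed (g : (ι → Bool) → ℝ) (i : ι) (x : ι → Bool) : ℝ := g x * (1 - g (fl x i))

/-- half the influence -/
noncomputable def bd (g : (ι → Bool) → ℝ) (i : ι) : ℝ := Ex (ed g i)

lemma Is01.ed {g : (ι → Bool) → ℝ} (h : Is01 g) (i : ι) : Is01 (ed g i) := by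
  intro x
  rcases h x with h1 | h1 <;> rcases h (fl x i) with h2 | h2 <;> simp [Junta.ed, h1, h2]

lemma Is01.ed_le {g : (ι → Bool) → ℝ} (h : Is01 g) (i : ι) (x : ι → Bool) :
    Junta.ed g i x ≤ g x := by
  rcases h x with h1 | h1 <;> rcases h (fl x i) with h2 | h2 <;> simp [Junta.ed, h1, h2]

lemma Is01.bd_nonneg {g : (ι → Bool) → ℝ} (h : Is01 g) (i : ι) : 0 ≤ bd g i :=
  Ex_nonneg (h.ed i).nonneg

lemma Is01.bd_le {g : (ι → Bool) → ℝ} (h : Is01 g) (i : ι) : bd g i ≤ Ex g :=
  Ex_mono (h.ed_le i)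

lemma bd_res_of_not_mem {U : Finset ι} {i : ι} (hi : i ∉ U) (g : (ι → Bool) → ℝ)
    (x : ι → Bool) : bd (res U x g) i = den U (ed g i) x := by
  simp only [bd, den]
  congr 1
  funext y
  simp only [ed, res, mg_fl_right hi]

lemma bd_res_of_mem {U : Finset ι} {i : ι} (hi : i ∈ U) {g : (ι → Bool) → ℝ} (hg : Is01 g)
    (x : ι → Bool) : bd (res U x g) i = 0 := by
  rw [bd, ← Ex_const (ι := ι) 0]
  refine Ex_congr fun y => ?_
  simp only [ed, res, mg_fl_right' hi]
  rcases hg (mg U x y) with h | h <;> simp [h]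

lemma den_le_pow {g : (ι → Bool) → ℝ} (h : ∀ x, 0 ≤ g x) (T : Finset ι) (x : ι → Bool) :
    den T g x ≤ 2 ^ T.card * Ex g := by
  induction T using Finset.induction_on generalizing x with
  | empty => simp [den_empty]
  | insert i T hi ih =>
    have h1 := den_avg hi g x
    have h2 := den_nonneg h (insert i T) (fl x i)
    have h3 := ih x
    rw [card_insert_of_notMem hi, pow_succ]
    linarith

end Pool.Agent.H73Z.Junta
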