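import Mathlib

/-! Boolean functions on the discrete cube: measure, influences, juntas. -/

set_option autoImplicit false

namespace Pool.Agent.H73Z.JuntaDefs

variable {ι : Type} [Fintype ι] [DecidableEq ι]

/-- the probability of an event under the uniform measure on the cube `{0,1}^ι` -/
noncomputable def prob (p : (ι → Bool) → Prop) [DecidablePred p] : ℝ :=
  ((Finset.univ.filter p).card : ℝ) / 2 ^ Fintype.card ι

/-- the point `x ⊕ e_i` -/
def flipAt (x : ι → Bool) (i : ι) : ι → Bool := Function.update x i (!x i)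

/-- `μ(f) = Pr[f(x) = 1]` -/
noncomputable def mu (f : (ι → Bool) → Bool) : ℝ := prob fun x => f x = true

/-- the influence `I_i(f) = Pr[f(x) ≠ f(x ⊕ e_i)]` -/
noncomputable def infl (f : (ι → Bool) → Bool) (i : ι) : ℝ := prob fun x => f x ≠ f (flipAt x i)

/-- the total influence -/
noncomputable def totalInfl (f : (ι → Bool) → Bool) : ℝ := ∑ i, infl f i

/-- the distance `Pr[f(x) ≠ g(x)]` -/
noncomputable def disagree (f g : (ι → Bool) → Bool) : ℝ := prob fun x => f x ≠ g x

/-- `g(x)` is determined by the coordinates of `x` in `J` -/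
def IsJuntaOn (g : (ι → Bool) → Bool) (J : Finset ι) : Prop :=
  ∀ x y : ι → Bool, (∀ j ∈ J, x j = y j) → g x = g y

end Pool.Agent.H73Z.JuntaDefs
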