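import Pool.Agent.H73Z.Junta.Cube

/-! Entropy functionals of conditional densities. -/

set_option autoImplicit false
set_option linter.unusedSectionVars false

namespace Pool.Agent.H73Z.Junta

open Finset Real

variable {ι : Type} [Fintype ι] [DecidableEq ι]

/-- the entropy functional -/
noncomputable def Phi (g : (ι → Bool) → ℝ) (U : Finset ι) : ℝ :=
  Ex fun x => g x * log (den U g x)

/-- the information carried by coordinate `i` given the coordinates in `U` -/
noncomputable def dl (g : (ι → Bool) → ℝ) (i : ι) (U : Finset ι) : ℝ :=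
  Phi g (insert i U) - Phi g U

lemma gibbs {g : (ι → Bool) → ℝ} (hg : ∀ x, 0 ≤ g x) {W : Finset ι} {Q : (ι → Bool) → ℝ}
    (hQ : Dep W Q) (hQ0 : ∀ x, 0 ≤ Q x) (hpos : ∀ x, 0 < g x → 0 < Q x) :
    Ex (fun x => g x * log (Q x)) - Phi g W ≤ Ex Q - Ex g := by
  have h1 : Ex (fun x => g x * (Q x / den W g x)) ≤ Ex Q := by
    rw [← tower_mul (U := W) (F := fun x => Q x / den W g x)
      (fun x y => by simp only [hQ x y, dep_den W g x y]) g]
    refine Ex_mono fun x => ?_
    rcases eq_or_ne (den W g x) 0 with h | h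
    · simp [h, hQ0 x]
    · rw [mul_div_cancel₀ _ h]
  rw [Phi, ← Ex_sub]
  refine le_trans ?_ (sub_le_sub_right h1 _)
  rw [← Ex_sub]
  refine Ex_mono fun x => ?_
  rcases (hg x).eq_or_lt with h | h
  · simp [← h]
  · have hd := den_pos hg W h
    have hq := hpos x h
    have := log_le_sub_one_of_pos (div_pos hq hd)
    rw [log_div hq.ne' hd.ne'] at this
    nlinarith

lemma dl_mono {g : (ι → Bool) → ℝ} (hg : ∀ x, 0 ≤ g x) {U W : Finset ι} (hUW : U ⊆ W) {i : ι}
    (hi : i ∉ W) : dl g i U ≤ dl g i W := by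
  have hiU : i ∉ U := fun h => hi (hUW h)
  let Q : (ι → Bool) → ℝ := fun x => den (insert i U) g x * (den W g x / den U g x)
  have hQ : Dep (insert i W) Q := by
    intro x y
    simp only [Q]
    rw [(dep_den (insert i U) g).mono (insert_subset_insert i hUW) x y,
      (dep_den W g).mono (subset_insert i W) x y,
      (dep_den U g).mono (hUW.trans (subset_insert i W)) x y]
  have hQ0 : ∀ x, 0 ≤ Q x := fun x =>
    mul_nonneg (den_nonneg hg _ _) (div_nonneg (den_nonneg hg _ _) (den_nonneg hg _ _))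
  have h1 := gibbs hg hQ hQ0 (fun x hx =>
    mul_pos (den_pos hg _ hx) (div_pos (den_pos hg _ hx) (den_pos hg _ hx)))
  have h2 : Ex Q ≤ Ex g := by
    have e1 : Ex Q = Ex fun x => (Q x + Q (fl x i)) / 2 := by
      rw [Ex_div, Ex_add, Ex_fl i Q]
      ring
    rw [e1, ← Ex_den W g]
    refine Ex_mono fun x => ?_
    simp only [Q]
    rw [(dep_den W g).fl hi, (dep_den U g).fl hiU, ← add_mul, mul_div_right_comm,
      ← den_avg hiU]
    rcases eq_or_ne (den U g x) 0 with h | h
    · simp [h, den_nonneg hg]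
    · rw [mul_div_cancel₀ _ h]
  have h3 : Ex (fun x => g x * log (Q x)) = Phi g (insert i U) + Phi g W - Phi g U := by
    simp only [Phi]
    rw [← Ex_add, ← Ex_sub]
    refine Ex_congr fun x => ?_
    rcases (hg x).eq_or_lt with h | h
    · simp [← h]
    · simp only [Q]
      rw [log_mul (den_pos hg _ h).ne' (div_pos (den_pos hg _ h) (den_pos hg _ h)).ne',
        log_div (den_pos hg _ h).ne' (den_pos hg _ h).ne']
      ring
  simp only [dl]
  linarith

lemma Phi_chain_le {g : (ι → Bool) → ℝ} (hg : ∀ x, 0 ≤ g x) (U V : Finset ι)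
    (h : Disjoint U V) : Phi g (U ∪ V) - Phi g U ≤ ∑ i ∈ V, dl g i ((U ∪ V).erase i) := by
  induction V using Finset.induction_on with
  | empty => simp
  | insert j V hj ih =>
    have hjU : j ∉ U := fun e => (disjoint_left.1 h e) (mem_insert_self j V)
    have hjUV : j ∉ U ∪ V := by simp [hj, hjU]
    have h1 := ih (h.mono_right (subset_insert j V))
    rw [sum_insert hj, union_insert, erase_insert hjUV]
    have h2 : ∑ i ∈ V, dl g i ((U ∪ V).erase i) ≤
        ∑ i ∈ V, dl g i ((insert j (U ∪ V)).erase i) :=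
      sum_le_sum fun i _ => dl_mono hg (erase_subset_erase i (subset_insert _ _))
        (notMem_erase i _)
    have h3 : dl g j (U ∪ V) = Phi g (insert j (U ∪ V)) - Phi g (U ∪ V) := rfl
    linarith

lemma Phi_chain_ge {g : (ι → Bool) → ℝ} (hg : ∀ x, 0 ≤ g x) (V : Finset ι) :
    ∑ i ∈ V, dl g i ∅ ≤ Phi g V - Phi g ∅ := by
  induction V using Finset.induction_on with
  | empty => simp
  | insert j V hj ih =>
    rw [sum_insert hj]
    have h2 := dl_mono hg (empty_subset V) hj
    have h3 : dl g j V = Phi g (insert j V) - Phi g V := rfl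
    linarith

lemma Phi_univ {g : (ι → Bool) → ℝ} (hg : Is01 g) : Phi g univ = 0 := by
  rw [Phi, ← Ex_const (ι := ι) 0]
  refine Ex_congr fun x => ?_
  rw [den_univ]
  rcases hg x with h | h <;> simp [h]

lemma Phi_empty (g : (ι → Bool) → ℝ) : Phi g ∅ = Ex g * log (Ex g) := by
  simp only [Phi, den_empty, Ex_mul']

lemma Phi_nonpos {g : (ι → Bool) → ℝ} (hg : Is01 g) (U : Finset ι) : Phi g U ≤ 0 := by
  rw [← Ex_const (ι := ι) 0]
  exact Ex_mono fun x => mul_nonpos_of_nonneg_of_nonpos (hg.nonneg x)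
    (log_nonpos (den_nonneg hg.nonneg _ _) (hg.den_le_one _ _))

lemma dl_top {g : (ι → Bool) → ℝ} (hg : Is01 g) (i : ι) :
    dl g i (univ.erase i) = bd g i * log 2 := by
  rw [dl, insert_erase (mem_univ i), Phi_univ hg, Phi, bd, ← Ex_mul', zero_sub, ← neg_one_mul,
    ← Ex_mul]
  refine Ex_congr fun x => ?_
  rw [den_avg (notMem_erase i univ), insert_erase (mem_univ i), den_univ, den_univ, ed]
  rcases hg x with h | h <;> rcases hg (fl x i) with h' | h' <;> simp [h, h']

lemma dl_le {g : (ι → Bool) → ℝ} (hg : Is01 g) {i : ι} {U : Finset ι} (hi : i ∉ U) :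
    dl g i U ≤ bd g i * log 2 := by
  rw [← dl_top hg]
  refine dl_mono hg.nonneg ?_ (notMem_erase i _)
  intro j hj
  simp only [mem_erase, mem_univ, and_true]
  exact fun e => hi (e ▸ hj)

/-- the excess in the edge-isoperimetric inequality -/
noncomputable def exc (g : (ι → Bool) → ℝ) : ℝ := (∑ i, bd g i) * log 2 + Phi g ∅

lemma Phi_step {g : (ι → Bool) → ℝ} (hg : Is01 g) (U V : Finset ι) (h : Disjoint U V) :
    Phi g (U ∪ V) - Phi g U ≤ ∑ i ∈ V, bd g i * log 2 :=
  (Phi_chain_le hg.nonneg U V h).trans (sum_le_sum fun i _ => dl_le hg (notMem_erase i _))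

lemma neg_Phi_le {g : (ι → Bool) → ℝ} (hg : Is01 g) (U : Finset ι) :
    - Phi g U ≤ ∑ i ∈ Uᶜ, bd g i * log 2 := by
  have := Phi_step hg U Uᶜ disjoint_compl_right
  rw [union_compl, Phi_univ hg] at this
  linarith

lemma exc_ge_sum {g : (ι → Bool) → ℝ} (hg : Is01 g) (R : Finset ι) :
    ∑ i ∈ R, (bd g i * log 2 - dl g i (R.erase i)) ≤ exc g := by
  have h1 := Phi_chain_le hg.nonneg ∅ R (disjoint_empty_left R)
  have h2 := neg_Phi_le hg R
  rw [empty_union] at h1
  rw [exc, sum_mul, ← sum_add_sum_compl R, sum_sub_distrib]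
  linarith

lemma exc_nonneg {g : (ι → Bool) → ℝ} (hg : Is01 g) : 0 ≤ exc g := by
  simpa using exc_ge_sum hg ∅

lemma info_le {g : (ι → Bool) → ℝ} (hg : Is01 g) (U W : Finset ι) (h : Disjoint U W) :
    Phi g (U ∪ W) - Phi g U - Phi g W + Phi g ∅ ≤ exc g := by
  have h1 := Phi_step hg W U h.symm
  have h2 := neg_Phi_le hg U
  rw [union_comm] at h1
  rw [exc, sum_mul, ← sum_add_sum_compl U]
  linarith

/-- Donsker-Varadhan inequality for two disjoint blocks of coordinates -/
lemma dv {g : (ι → Bool) → ℝ} (hg : Is01 g) (hμ : 0 < Ex g) {U W : Finset ι} (h : Disjoint U W)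
    (φ : (ι → Bool) → (ι → Bool) → ℝ) (h1 : Dep U φ) (h2 : ∀ x, Dep W (φ x)) :
    Ex (fun x => g x * φ x x) ≤ exc g +
      (Ex fun x => Ex fun y => g x * g y * (exp (φ x y) - 1)) / Ex g := by
  let Q : (ι → Bool) → ℝ := fun x => den U g x * den W g x * exp (φ x x) / Ex g
  have hQ : Dep (U ∪ W) Q := by
    intro x y
    simp only [Q]
    rw [(dep_den U g).mono subset_union_left x y, (dep_den W g).mono subset_union_right x y,
      h1.mono subset_union_left x y, (h2 x).mono subset_union_right x y]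
  have hQ0 : ∀ x, 0 ≤ Q x := fun x => div_nonneg (mul_nonneg
    (mul_nonneg (den_nonneg hg.nonneg _ _) (den_nonneg hg.nonneg _ _)) (exp_pos _).le) hμ.le
  have h3 := gibbs hg.nonneg hQ hQ0 (fun x hx => div_pos (mul_pos
    (mul_pos (den_pos hg.nonneg _ hx) (den_pos hg.nonneg _ hx)) (exp_pos _)) hμ)
  have h4 : Ex (fun x => g x * log (Q x)) =
      Phi g U + Phi g W + Ex (fun x => g x * φ x x) - Phi g ∅ := by
    simp only [Phi]
    rw [← Ex_add, ← Ex_add, ← Ex_sub]
    refine Ex_congr fun x => ?_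
    rcases (hg.nonneg x).eq_or_lt with h | h
    · simp [← h]
    · have p1 := den_pos hg.nonneg U h
      have p2 := den_pos hg.nonneg W h
      simp only [Q]
      rw [log_div (by positivity) hμ.ne', log_mul (by positivity) (by positivity),
        log_mul p1.ne' p2.ne', log_exp, den_empty]
      ring
  have hWU : W ⊆ Uᶜ := fun j hj => mem_compl.2 fun e => disjoint_left.1 h e hj
  have h5 : Ex (fun x => den U g x * den W g x * exp (φ x x)) =
      Ex fun x => Ex fun y => g x * g y * exp (φ x y) := by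
    have a1 : Ex (fun x => den U g x * den W g x * exp (φ x x)) =
        Ex fun x => Ex fun y => den U g x * (den W g y * exp (φ x y)) := by
      rw [← Ex_mg U]
      refine Ex_congr fun x => Ex_congr fun y => ?_
      have e1 : mg U x y = mg Uᶜ y x := by
        funext j
        by_cases hj : j ∈ U <;> simp [mg, hj]
      rw [dep_den U g x y, h1 x y, e1, (dep_den W g).mono hWU y x, (h2 x).mono hWU y x,
        mul_assoc]
    rw [a1]
    have a2 : ∀ x, (Ex fun y => den U g x * (den W g y * exp (φ x y))) =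
        den U g x * Ex fun y => g y * exp (φ x y) := by
      intro x
      rw [Ex_mul, tower_mul (F := fun y => exp (φ x y)) (fun y z => by simp only [h2 x y z])]
    simp only [a2]
    rw [tower_mul (F := fun x => Ex fun y => g y * exp (φ x y))
      (fun x z => by simp only [h1 x z])]
    refine Ex_congr fun x => ?_
    rw [← Ex_mul]
    exact Ex_congr fun y => by ring
  have h6 : (Ex fun x => Ex fun y => g x * g y * (exp (φ x y) - 1)) =
      (Ex fun x => Ex fun y => g x * g y * exp (φ x y)) - Ex g * Ex g := by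
    rw [← Ex_mul' (Ex g) g, ← Ex_sub]
    refine Ex_congr fun x => ?_
    rw [← Ex_mul, ← Ex_sub]
    exact Ex_congr fun y => by ring
  have h7 : Ex Q = (Ex fun x => Ex fun y => g x * g y * exp (φ x y)) / Ex g := by
    rw [← h5, ← Ex_div]
  have h8 := info_le hg U W h
  rw [h6, sub_div, mul_div_cancel_right₀ _ hμ.ne', ← h7]
  linarith

lemma Ex_Phi_res (g : (ι → Bool) → ℝ) (U W : Finset ι) :
    Ex (fun x => Phi (res U x g) W) = Phi g (U ∪ W) := by
  rw [Phi, ← Ex_mg U (fun x => g x * log (den (U ∪ W) g x))]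
  refine Ex_congr fun x => Ex_congr fun y => ?_
  rw [den_res]
  rfl

/-- local excess of one coordinate -/
noncomputable def loc (g : (ι → Bool) → ℝ) (i : ι) : ℝ := bd g i * log 2 - dl g i ∅

lemma loc_nonneg {g : (ι → Bool) → ℝ} (hg : Is01 g) (i : ι) : 0 ≤ loc g i :=
  sub_nonneg.2 (dl_le hg (notMem_empty i))

lemma Ex_loc_res {g : (ι → Bool) → ℝ} (hg : Is01 g) (U : Finset ι) (i : ι) :
    Ex (fun x => loc (res U x g) i) = if i ∈ U then 0 else bd g i * log 2 - dl g i U := by
  simp only [loc, dl]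
  rw [Ex_sub, Ex_sub, Ex_Phi_res, Ex_Phi_res, Ex_mul', union_insert, union_empty]
  split_ifs with hi
  · simp [bd_res_of_mem hi hg, insert_eq_of_mem hi, Ex_const]
  · simp only [bd_res_of_not_mem hi]
    rw [Ex_den]
    rfl

lemma two_point {s t a : ℝ} (hs : 0 ≤ s) (hst : s ≤ t) (ha : t - s ≤ 2 * a) :
    min a ((s + t) / 2 - a) ≤ 6 * (a * log 2 -
      ((s * log s + t * log t) / 2 - (s + t) / 2 * log ((s + t) / 2))) := by
  have hl1 := log_two_gt_d9
  have hl2 := log_two_lt_d9
  rcases (hs.trans hst).eq_or_lt with ht | ht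
  · have hs0 : s = 0 := le_antisymm (ht ▸ hst) hs
    subst hs0
    subst ht
    have : 0 ≤ a := by linarith
    refine (min_le_right _ _).trans ?_
    simp
    nlinarith
  set ρ := (s + t) / 2 with hρ
  have hρ0 : 0 < ρ := by linarith
  have e1 : (s * log s + t * log t) / 2 - ρ * log ρ =
      (s * (log s - log ρ) + t * (log t - log ρ)) / 2 := by rw [hρ]; ring
  rw [e1]
  by_cases hc : t - s ≤ ρ
  · refine (min_le_left _ _).trans ?_
    have b1 : s * (log s - log ρ) ≤ s * (s / ρ - 1) := by
      rcases hs.eq_or_lt with h | h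
      · simp [← h]
      · have := log_le_sub_one_of_pos (div_pos h hρ0)
        rw [log_div h.ne' hρ0.ne'] at this
        exact mul_le_mul_of_nonneg_left this hs
    have b2 : t * (log t - log ρ) ≤ t * (t / ρ - 1) := by
      have := log_le_sub_one_of_pos (div_pos ht hρ0)
      rw [log_div ht.ne' hρ0.ne'] at this
      exact mul_le_mul_of_nonneg_left this ht.le
    have b3 : s * (s / ρ - 1) + t * (t / ρ - 1) = (t - s) * ((t - s) / ρ) / 2 := by
      field_simp
      rw [hρ]
      ring
    have b4 : (t - s) / ρ ≤ 1 := (div_le_one hρ0).2 hc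
    have b5 : (t - s) * ((t - s) / ρ) ≤ t - s := mul_le_of_le_one_right (by linarith) b4
    nlinarith
  · refine (min_le_right _ _).trans ?_
    push Not at hc
    have b1 : s * (log s - log ρ) ≤ - s * log 2 := by
      rcases hs.eq_or_lt with h | h
      · simp [← h]
      · have : log (2 * s) ≤ log ρ := log_le_log (by linarith) (by linarith)
        rw [log_mul (by norm_num) h.ne'] at this
        nlinarith
    have b2 : t * (log t - log ρ) ≤ t * log 2 - 3 / 4 * s := by
      have := log_le_sub_one_of_pos (div_pos ht (by linarith : 0 < 2 * ρ))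
      rw [log_div ht.ne' (by linarith), log_mul (by norm_num) hρ0.ne'] at this
      have b3 : t * (t / (2 * ρ) - 1) = - (s * (t / (2 * ρ))) := by
        field_simp
        rw [hρ]
        ring
      have b4 : 3 / 4 ≤ t / (2 * ρ) := by
        rw [le_div_iff₀ (by linarith)]
        linarith
      nlinarith
    nlinarith

lemma min_le_loc {g : (ι → Bool) → ℝ} (hg : Is01 g) (i : ι) :
    min (bd g i) (Ex g - bd g i) ≤ 6 * loc g i := by
  let s : (ι → Bool) → ℝ := den {i} g
  have hs : ∀ x, Ex g = (s x + s (fl x i)) / 2 := fun x => by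
    rw [← den_empty g x, den_avg (notMem_empty i)]
    rfl
  have hd : ∀ x, s x - s (fl x i) ≤ 2 * bd g i := by
    intro x
    have h1 := den_le_pow (hg.ed i).nonneg {i} x
    rw [card_singleton, pow_one] at h1
    refine le_trans ?_ h1
    simp only [s, den]
    rw [← Ex_sub]
    refine Ex_mono fun y => ?_
    simp only [res, ed, mg_fl_left (mem_singleton_self i)]
    rcases hg (mg {i} x y) with h | h <;> rcases hg (fl (mg {i} x y) i) with h' | h' <;>
      simp [h, h']
  have hdl : dl g i ∅ = Ex fun x => (s x * log (s x) + s (fl x i) * log (s (fl x i))) / 2 -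
      Ex g * log (Ex g) := by
    rw [Ex_sub, Ex_const, Ex_div, Ex_add, Ex_fl i (fun x => s x * log (s x)), dl, Phi_empty, Phi,
      ← tower_mul (U := insert i ∅) (F := fun x => log (den (insert i ∅) g x))
        (fun x y => by simp only [dep_den _ g x y])]
    simp [s]
  rw [loc, hdl, ← Ex_const (ι := ι) (min _ _), ← Ex_const (ι := ι) (bd g i * log 2), ← Ex_sub,
    ← Ex_mul]
  refine Ex_mono fun x => ?_
  rcases le_total (s x) (s (fl x i)) with h | h
  · have := two_point (den_nonneg hg.nonneg _ x) h (by simpa using hd (fl x i))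
    rwa [← hs x] at this
  · have := two_point (den_nonneg hg.nonneg _ _) h (hd x)
    rwa [add_comm (den {i} g (fl x i)), ← hs x, add_comm (den {i} g (fl x i) * _)] at this

lemma bd_le_loc {g : (ι → Bool) → ℝ} (hg : Is01 g) {i : ι} (h : bd g i ≤ Ex g / 2) :
    bd g i ≤ 6 * loc g i := by
  have := min_le_loc hg i
  rwa [min_eq_left (by linarith)] at this

lemma sub_bd_le_loc {g : (ι → Bool) → ℝ} (hg : Is01 g) {i : ι} (h : Ex g / 2 ≤ bd g i) :
    Ex g - bd g i ≤ 6 * loc g i := by
  have := min_le_loc hg i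
  rwa [min_eq_right (by linarith)] at this

end Pool.Agent.H73Z.Junta
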