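import Pool.Agent.H73Z.Junta.Ent

/-! The resampling loss, its Fourier expansion, and the junta estimate inside one fibre. -/

set_option autoImplicit false
set_option linter.unusedSectionVars false

namespace Pool.Agent.H73Z.Junta

open Finset Real Pool.Agent.H562R2

variable {ι : Type} [Fintype ι] [DecidableEq ι]

/-- the loss when the coordinates in `V` are resampled -/
noncomputable def Dv (V : Finset ι) (g : (ι → Bool) → ℝ) : ℝ :=
  Ex fun x => g x * (g x - den Vᶜ g x)

lemma fc_eq (g : (ι → Bool) → ℝ) (S : Finset ι) : fc g S = Ex fun x => g x * walsh S x := rfl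

lemma parseval' (f g : (ι → Bool) → ℝ) :
    Ex (fun x => f x * g x) = ∑ S, fc f S * fc g S := (parseval f g).symm

lemma walsh_fl_mem {S : Finset ι} {j : ι} (h : j ∈ S) (x : ι → Bool) :
    walsh S (fl x j) = - walsh S x := by
  rw [walsh, walsh, ← mul_prod_erase S _ h, ← mul_prod_erase S _ h, fl_same]
  have : ∏ i ∈ S.erase j, sg (fl x j i) = ∏ i ∈ S.erase j, sg (x i) :=
    prod_congr rfl fun i hi => by rw [fl_ne x (ne_of_mem_erase hi)]
  rw [this]
  cases x j <;> simp

lemma fc_den (U : Finset ι) (g : (ι → Bool) → ℝ) (S : Finset ι) :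
    fc (den U g) S = if S ⊆ U then fc g S else 0 := by
  split_ifs with h
  · rw [fc_eq, fc_eq]
    refine tower_mul (fun x y => ?_) g
    simp only [walsh]
    exact prod_congr rfl fun i hi => by simp [mg, h hi]
  · obtain ⟨j, hjS, hjU⟩ := not_subset.1 h
    have h1 := Ex_fl j (fun x => den U g x * walsh S x)
    simp only [(dep_den U g).fl hjU, walsh_fl_mem hjS, mul_neg] at h1
    have h2 : Ex (fun x => -(den U g x * walsh S x)) = - Ex (fun x => den U g x * walsh S x) := by
      rw [← neg_one_mul, ← Ex_mul]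
      simp
    rw [fc_eq]
    linarith

lemma Dv_eq (V : Finset ι) (g : (ι → Bool) → ℝ) :
    Dv V g = ∑ S, if Disjoint S V then 0 else fc g S ^ 2 := by
  simp only [Dv, mul_sub]
  rw [Ex_sub, parseval', parseval', ← sum_sub_distrib]
  refine sum_congr rfl fun S _ => ?_
  rw [fc_den]
  simp only [subset_compl_iff_disjoint_right]
  split_ifs <;> ring

lemma Dv_le_add {V V₁ V₂ : Finset ι} (h : V ⊆ V₁ ∪ V₂) (g : (ι → Bool) → ℝ) :
    Dv V g ≤ Dv V₁ g + Dv V₂ g := by
  simp only [Dv_eq, ← sum_add_distrib]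
  refine sum_le_sum fun S _ => ?_
  have := sq_nonneg (fc g S)
  by_cases h1 : Disjoint S V₁ <;> by_cases h2 : Disjoint S V₂
  · have : Disjoint S V := (disjoint_union_right.2 ⟨h1, h2⟩).mono_right h
    simp [h1, h2, this]
  all_goals
    simp only [h1, h2, if_true, if_false]
    split_ifs <;> linarith

lemma Dv_nonneg (V : Finset ι) (g : (ι → Bool) → ℝ) : 0 ≤ Dv V g := by
  rw [Dv_eq]
  exact sum_nonneg fun S _ => by split_ifs <;> positivity

lemma Dv_le {g : (ι → Bool) → ℝ} (hg : Is01 g) (V : Finset ι) : Dv V g ≤ Ex g := by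
  refine Ex_mono fun x => ?_
  have := den_nonneg hg.nonneg Vᶜ x
  rcases hg x with h | h <;> simp [h, this]

lemma Ex_Dv_res {U : Finset ι} {V : (ι → Bool) → Finset ι} (hV : Dep U V)
    (hd : ∀ x, Disjoint U (V x)) (g : (ι → Bool) → ℝ) :
    Ex (fun x => Dv (V x) (res U x g)) = Ex fun x => g x * (g x - den (V x)ᶜ g x) := by
  rw [← tower U (fun x y => g y * (g y - den (V x)ᶜ g y)) (fun x y => by simp only [hV x y])]
  refine Ex_congr fun x => Ex_congr fun y => ?_
  rw [den_res, union_eq_right.2 (subset_compl_iff_disjoint_right.2 (hd x))]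
  rfl

lemma fc_ed {g : (ι → Bool) → ℝ} {S : Finset ι} {j : ι} (h : j ∈ S) :
    fc (ed g j) S = fc g S := by
  have h1 := Ex_fl j (fun x => g x * g (fl x j) * walsh S x)
  simp only [fl_fl, walsh_fl_mem h] at h1
  have h2 : Ex (fun x => g (fl x j) * g x * -walsh S x) =
      - Ex (fun x => g x * g (fl x j) * walsh S x) := by
    rw [← neg_one_mul, ← Ex_mul]
    exact Ex_congr fun x => by ring
  have h3 : fc (ed g j) S = fc g S - Ex (fun x => g x * g (fl x j) * walsh S x) := by
    rw [fc_eq, fc_eq, ← Ex_sub]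
    exact Ex_congr fun x => by simp only [ed]; ring
  linarith

lemma sum_mem_le {g : (ι → Bool) → ℝ} (hg : Is01 g) (j : ι) :
    ∑ S : Finset ι, (if j ∈ S then fc g S ^ 2 else 0) ≤ bd g j := by
  have h1 : bd g j = ∑ S, fc (ed g j) S * fc (ed g j) S := by
    rw [← parseval']
    refine Ex_congr fun x => ?_
    rcases hg.ed j x with h | h <;> simp [h]
  rw [h1]
  refine sum_le_sum fun S _ => ?_
  split_ifs with h
  · rw [fc_ed h, sq]
  · exact mul_self_nonneg _

lemma sum_mem_small {g : (ι → Bool) → ℝ} (hg : Is01 g) (j : ι) {σ : ℝ} (hσ : 0 ≤ σ)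
    (h : bd g j ≤ σ ^ 2) :
    ∑ S : Finset ι, (if j ∈ S then (1 / 3 : ℝ) ^ S.card * fc g S ^ 2 else 0) ≤ σ * bd g j := by
  have h1 := small_set (ed g j) (hg.ed j)
  change _ ≤ bd g j ^ 3 at h1
  have h0 := hg.bd_nonneg j
  have h2 : ∑ S, (1 / 3 : ℝ) ^ S.card * fc (ed g j) S ^ 2 ≤ σ * bd g j := by
    refine abs_le_of_sq_le_sq' (h1.trans ?_) (by positivity) |>.2
    rw [mul_pow, pow_succ' (bd g j) 2]
    exact mul_le_mul_of_nonneg_right h (sq_nonneg _)
  refine le_trans (sum_le_sum fun S _ => ?_) h2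
  split_ifs with h
  · rw [fc_ed h]
  · positivity

/-- Friedgut's estimate -/
lemma friedgut {g : (ι → Bool) → ℝ} (hg : Is01 g) (V : Finset ι) {k : ℕ} (hk : 0 < k) {σ : ℝ}
    (hσ : 0 ≤ σ) (h : ∀ j ∈ V, bd g j ≤ σ ^ 2) :
    Dv V g ≤ (1 / k + 3 ^ k * σ) * ∑ j, bd g j := by
  have hk' : (0 : ℝ) < k := by exact_mod_cast hk
  have h1 : Dv V g ≤ 1 / k * ∑ j, ∑ S : Finset ι, (if j ∈ S then fc g S ^ 2 else 0) +
      3 ^ k * ∑ j ∈ V, ∑ S : Finset ι,
        (if j ∈ S then (1 / 3 : ℝ) ^ S.card * fc g S ^ 2 else 0) := by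
    rw [Dv_eq, sum_comm, sum_comm (s := V), mul_sum, mul_sum, ← sum_add_distrib]
    refine sum_le_sum fun S _ => ?_
    have p1 : 0 ≤ ∑ j, (if j ∈ S then fc g S ^ 2 else 0) :=
      sum_nonneg fun _ _ => by split_ifs <;> positivity
    have p2 : 0 ≤ ∑ j ∈ V, (if j ∈ S then (1 / 3 : ℝ) ^ S.card * fc g S ^ 2 else 0) :=
      sum_nonneg fun _ _ => by split_ifs <;> positivity
    split_ifs with hd
    · positivity
    · rcases le_total k S.card with hS | hS
      · have e1 : ∑ j, (if j ∈ S then fc g S ^ 2 else 0) = S.card * fc g S ^ 2 := by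
          rw [sum_ite_mem]
          simp
        have e2 : (k : ℝ) ≤ S.card := by exact_mod_cast hS
        have e3 : fc g S ^ 2 ≤ 1 / k * (S.card * fc g S ^ 2) := by
          rw [← mul_assoc]
          refine le_mul_of_one_le_left (sq_nonneg _) ?_
          rw [one_div, inv_mul_eq_div, le_div_iff₀ hk']
          linarith
        rw [e1]
        have : 0 ≤ (3 : ℝ) ^ k * ∑ j ∈ V,
          (if j ∈ S then (1 / 3 : ℝ) ^ S.card * fc g S ^ 2 else 0) := by positivity
        linarith
      · obtain ⟨j, hjS, hjV⟩ := not_disjoint_iff.1 hd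
        have e1 : (1 / 3 : ℝ) ^ S.card * fc g S ^ 2 ≤
            ∑ j ∈ V, (if j ∈ S then (1 / 3 : ℝ) ^ S.card * fc g S ^ 2 else 0) := by
          have := single_le_sum (f := fun j =>
            if j ∈ S then (1 / 3 : ℝ) ^ S.card * fc g S ^ 2 else 0)
            (fun _ _ => by split_ifs <;> positivity) hjV
          simpa [hjS] using this
        have e2 : (1 : ℝ) ≤ 3 ^ k * (1 / 3) ^ S.card := by
          rw [one_div, inv_pow, ← div_eq_mul_inv, le_div_iff₀ (by positivity), one_mul]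
          exact pow_le_pow_right₀ (by norm_num) hS
        have e3 : fc g S ^ 2 ≤ 3 ^ k * ((1 / 3 : ℝ) ^ S.card * fc g S ^ 2) := by
          rw [← mul_assoc]
          exact le_mul_of_one_le_left (sq_nonneg _) e2
        have e4 := mul_le_mul_of_nonneg_left e1 (by positivity : (0 : ℝ) ≤ 3 ^ k)
        have : 0 ≤ 1 / (k : ℝ) * ∑ j, (if j ∈ S then fc g S ^ 2 else 0) := by positivity
        linarith
  have h2 : ∑ j, ∑ S : Finset ι, (if j ∈ S then fc g S ^ 2 else 0) ≤ ∑ j, bd g j :=
    sum_le_sum fun j _ => sum_mem_le hg j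
  have h3 : ∑ j ∈ V, ∑ S : Finset ι,
      (if j ∈ S then (1 / 3 : ℝ) ^ S.card * fc g S ^ 2 else 0) ≤ σ * ∑ j, bd g j := by
    refine le_trans (sum_le_sum fun j hj => sum_mem_small hg j hσ (h j hj)) ?_
    rw [← mul_sum]
    exact mul_le_mul_of_nonneg_left (sum_le_sum_of_subset_of_nonneg (subset_univ _)
      fun j _ _ => hg.bd_nonneg j) hσ
  have h4 := mul_le_mul_of_nonneg_left h2 (by positivity : 0 ≤ 1 / (k : ℝ))
  have h5 := mul_le_mul_of_nonneg_left h3 (by positivity : (0 : ℝ) ≤ 3 ^ k)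
  linarith

/-- the total local excess -/
noncomputable def mm (g : (ι → Bool) → ℝ) : ℝ := ∑ i, loc g i

lemma mm_nonneg {g : (ι → Bool) → ℝ} (hg : Is01 g) : 0 ≤ mm g :=
  sum_nonneg fun i _ => loc_nonneg hg i

/-- the junta estimate inside a fibre -/
lemma fibre {g : (ι → Bool) → ℝ} (hg : Is01 g) (V : Finset ι) {k : ℕ} (hk : 0 < k) {τ : ℝ}
    (hτ : τ ≤ 1 / 2) (hτ' : τ * exp k ≤ (1 / (k * 3 ^ k)) ^ 2)
    (h : ∀ j ∈ V, bd g j ≤ τ * Ex g) : Dv V g ≤ 12 * mm g / k := by
  have hk' : (0 : ℝ) < k := by exact_mod_cast hk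
  have hm := mm_nonneg hg
  have hρ0 : 0 ≤ Ex g := Ex_nonneg hg.nonneg
  by_cases hc : k * Ex g ≤ 6 * mm g
  · refine (Dv_le hg V).trans ?_
    rw [le_div_iff₀ hk']
    linarith
  push Not at hc
  have hρ : 0 < Ex g := by
    by_contra h0
    have : Ex g = 0 := le_antisymm (not_lt.1 h0) hρ0
    rw [this] at hc
    linarith
  let T : Finset ι := univ.filter fun j => Ex g / 2 < bd g j
  have hl1 := log_two_gt_d9
  have hl2 := log_two_lt_d9
  have h1 : Ex g * (T.card * log 2 + log (Ex g)) ≤ 6 * mm g := by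
    have a1 := Phi_chain_ge hg.nonneg T
    have a2 := Phi_nonpos hg T
    rw [Phi_empty] at a1
    have a3 : ∑ i ∈ T, (Ex g * log 2 - dl g i ∅) ≤ ∑ i ∈ T, 6 * loc g i := by
      refine sum_le_sum fun i hi => ?_
      have b1 := sub_bd_le_loc hg (le_of_lt (mem_filter.1 hi).2)
      have b2 := loc_nonneg hg i
      have b3 : Ex g * log 2 - dl g i ∅ = (Ex g - bd g i) * log 2 + loc g i := by
        rw [loc]; ring
      rw [b3]
      nlinarith
    have a4 : ∑ i ∈ T, 6 * loc g i ≤ 6 * mm g := by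
      rw [← mul_sum]
      exact mul_le_mul_of_nonneg_left (sum_le_sum_of_subset_of_nonneg (subset_univ _)
        fun j _ _ => loc_nonneg hg j) (by norm_num)
    rw [sum_sub_distrib, sum_const, nsmul_eq_mul] at a3
    nlinarith
  have h2 : 2 ^ T.card * Ex g ≤ exp k := by
    have a1 : T.card * log 2 + log (Ex g) ≤ k := by
      have : Ex g * (T.card * log 2 + log (Ex g)) ≤ Ex g * k := by linarith
      exact le_of_mul_le_mul_left this hρ
    rw [← log_pow, ← log_mul (by positivity) hρ.ne'] at a1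
    exact (log_le_iff_le_exp (by positivity)).1 a1
  have hTV : Disjoint T V := by
    rw [disjoint_left]
    intro j hj hjV
    have := (mem_filter.1 hj).2
    have := h j hjV
    nlinarith
  have h3 : Dv V g = Ex fun x => Dv V (res T x g) :=
    (Ex_Dv_res (V := fun _ => V) (fun _ _ => rfl) (fun _ => hTV) g).symm
  have h4 : ∀ x, Dv V (res T x g) ≤ 2 / k * ∑ j, bd (res T x g) j := by
    intro x
    have := friedgut (hg.res T x) V hk (σ := 1 / (k * 3 ^ k)) (by positivity) (by
      intro j hj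
      have hjT : j ∉ T := fun e => disjoint_left.1 hTV e hj
      rw [bd_res_of_not_mem hjT]
      refine (den_le_pow (hg.ed j).nonneg T x).trans (le_trans ?_ hτ')
      have b1 : Ex (ed g j) ≤ τ * Ex g := h j hj
      have b0 : 0 ≤ τ := by
        by_contra hn
        have := hg.bd_nonneg j
        have := h j hj
        nlinarith
      calc 2 ^ T.card * Ex (ed g j) ≤ 2 ^ T.card * (τ * Ex g) := by gcongr
        _ = τ * (2 ^ T.card * Ex g) := by ring
        _ ≤ τ * exp k := by gcongr)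
    convert this using 2
    field_simp
    ring
  have h5 : Ex (fun x => ∑ j, bd (res T x g) j) ≤ 6 * mm g := by
    rw [Ex_sum, mm, mul_sum]
    refine sum_le_sum fun j _ => ?_
    by_cases hj : j ∈ T
    · simp only [bd_res_of_mem hj hg, Ex_const]
      have := loc_nonneg hg j
      linarith
    · simp only [bd_res_of_not_mem hj]
      rw [Ex_den]
      exact bd_le_loc hg (by simpa [T] using hj)
  rw [h3]
  refine (Ex_mono h4).trans ?_
  rw [Ex_mul]
  calc 2 / (k : ℝ) * Ex (fun x => ∑ j, bd (res T x g) j) ≤ 2 / k * (6 * mm g) := by gcongr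
    _ = _ := by ring

end Pool.Agent.H73Z.Junta
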