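import Pool.Agent.H73Z.Junta.Upper

/-! Address-type functions showing that the exponent cannot be `c M / ε` with `c < 2`. -/

set_option autoImplicit false
set_option linter.unusedSectionVars false

namespace Pool.Agent.H73Z.Junta

open Finset Real Pool.Agent.H73Z.JuntaDefs

lemma Ex_sum_type {α β : Type} [Fintype α] [DecidableEq α] [Fintype β] [DecidableEq β]
    (F : (α → Bool) → (β → Bool) → ℝ) :
    Ex (fun x : α ⊕ β → Bool => F (x ∘ Sum.inl) (x ∘ Sum.inr)) = Ex fun u => Ex fun v => F u v := by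
  simp only [Ex, ← sum_div]
  rw [div_div, ← pow_add, Fintype.card_sum, add_comm, ← Fintype.sum_prod_type']
  congr 1
  exact Equiv.sum_comp (Equiv.sumArrowEquivProdArrow α β Bool) (fun p => F p.1 p.2)

lemma Ex_mem {α : Type} [Fintype α] [DecidableEq α] (D : Finset (α → Bool)) :
    Ex (fun x => if x ∈ D then (1 : ℝ) else 0) = D.card / 2 ^ Fintype.card α := by
  simp [Ex]

/-- a bit as a real number -/
def br (b : Bool) : ℝ := if b = true then 1 else 0

lemma Ex_bit {α : Type} [Fintype α] [DecidableEq α] (i : α) (F : (α → Bool) → ℝ)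
    (hF : ∀ x, F (fl x i) = F x) : Ex (fun x => br (x i) * F x) = Ex F / 2 := by
  have h1 := Ex_fl i (fun x => br (x i) * F x)
  have h2 : Ex (fun x => br (x i) * F x) + Ex (fun x => br (fl x i i) * F (fl x i)) = Ex F := by
    rw [← Ex_add]
    refine Ex_congr fun x => ?_
    rw [hF, fl_same]
    cases x i <;> simp [br]
  linarith

section Ex
variable (s q m : ℕ) (D : Finset (Fin q → Bool))

/-- the coordinates: conjunction bits, selector bits, address bits, targets -/
abbrev Idx := Fin s ⊕ Fin q ⊕ Fin m ⊕ Option (Fin m → Bool)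

/-- the target -/
def tg (σ : Fin q → Bool) (a : Fin m → Bool) : Option (Fin m → Bool) :=
  if σ ∈ D then some a else none

/-- the function -/
def adr (x : Idx s q m → Bool) : Bool :=
  decide (x ∘ Sum.inl = fun _ => true) &&
    x (Sum.inr (Sum.inr (Sum.inr (tg q m D (x ∘ Sum.inr ∘ Sum.inl)
      (x ∘ Sum.inr ∘ Sum.inr ∘ Sum.inl)))))

/-- indicator of the all-ones vector -/
def al (z : Fin s → Bool) : ℝ := if z = fun _ => true then 1 else 0

lemma Ex_al : Ex (al s) = 1 / 2 ^ s := by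
  have := Ex_mem ({fun _ => true} : Finset (Fin s → Bool))
  simp only [mem_singleton, card_singleton, Nat.cast_one, Fintype.card_fin] at this
  exact this

lemma Ex4 (F : (Fin s → Bool) → (Fin q → Bool) → (Fin m → Bool) →
    (Option (Fin m → Bool) → Bool) → ℝ) :
    Ex (fun x : Idx s q m → Bool => F (x ∘ Sum.inl) (x ∘ Sum.inr ∘ Sum.inl)
      (x ∘ Sum.inr ∘ Sum.inr ∘ Sum.inl) (x ∘ Sum.inr ∘ Sum.inr ∘ Sum.inr)) =
    Ex fun z => Ex fun σ => Ex fun a => Ex fun y => F z σ a y := by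
  refine (Ex_sum_type fun z v => F z (v ∘ Sum.inl) (v ∘ Sum.inr ∘ Sum.inl)
    (v ∘ Sum.inr ∘ Sum.inr)).trans (Ex_congr fun z => ?_)
  refine (Ex_sum_type fun σ v => F z σ (v ∘ Sum.inl) (v ∘ Sum.inr)).trans (Ex_congr fun σ => ?_)
  exact Ex_sum_type fun a y => F z σ a y

lemma ind_adr (x : Idx s q m → Bool) : ind (adr s q m D) x = al s (x ∘ Sum.inl) *
    br ((x ∘ Sum.inr ∘ Sum.inr ∘ Sum.inr) (tg q m D (x ∘ Sum.inr ∘ Sum.inl)
      (x ∘ Sum.inr ∘ Sum.inr ∘ Sum.inl))) := by
  simp only [ind, adr, al, br, Bool.and_eq_true, decide_eq_true_eq, Function.comp_apply]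
  split_ifs <;> simp_all

lemma mu_adr : mu (adr s q m D) = 1 / 2 ^ (s + 1) := by
  rw [mu_eq, funext (ind_adr s q m D), Ex4 s q m fun z σ a y => al s z * br (y (tg q m D σ a))]
  have : ∀ o : Option (Fin m → Bool), Ex (fun y : Option (Fin m → Bool) → Bool => br (y o)) =
      1 / 2 := fun o => by simpa [Ex_const] using Ex_bit o (fun _ => 1) fun _ => rfl
  simp only [Ex_mul, this, Ex_const, Ex_mul', Ex_al]
  rw [pow_succ]
  field_simp

lemma fl_comp {α β : Type} [DecidableEq α] [DecidableEq β] (e : α → β)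
    (he : Function.Injective e) (x : β → Bool) (i : α) : fl x (e i) ∘ e = fl (x ∘ e) i := by
  funext j
  by_cases h : j = i
  · subst h
    simp [fl]
  · simp [fl, h, he.ne h]

lemma fl_comp' {α β : Type} [DecidableEq β] (e : α → β) (x : β → Bool) (i : β)
    (h : ∀ j, e j ≠ i) : fl x i ∘ e = x ∘ e := by
  funext j
  simp [fl, h j]

lemma bd_address (j : Fin m) : bd (ind (adr s q m D)) (Sum.inr (Sum.inr (Sum.inl j))) =
    1 / 2 ^ s * (D.card / 2 ^ q / 4) := by
  have h1 : ∀ x : Idx s q m → Bool, ed (ind (adr s q m D)) (Sum.inr (Sum.inr (Sum.inl j))) x =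
      al s (x ∘ Sum.inl) * ((if x ∘ Sum.inr ∘ Sum.inl ∈ D then 1 else 0) *
        (br ((x ∘ Sum.inr ∘ Sum.inr ∘ Sum.inr) (some (x ∘ Sum.inr ∘ Sum.inr ∘ Sum.inl))) *
        (1 - br ((x ∘ Sum.inr ∘ Sum.inr ∘ Sum.inr)
          (some (fl (x ∘ Sum.inr ∘ Sum.inr ∘ Sum.inl) j)))))) := by
    intro x
    have e := fl_comp (Sum.inr ∘ Sum.inr ∘ Sum.inl : Fin m → Idx s q m)
      (fun _ _ h => by simpa using h) x j
    simp only [Function.comp_apply] at e
    rw [ed, ind_adr, ind_adr, e, fl_comp' _ x _ (by simp), fl_comp' _ x _ (by simp),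
      fl_comp' _ x _ (by simp)]
    simp only [tg, al, br]
    split_ifs <;> simp
  rw [bd, funext h1, Ex4 s q m fun z σ a y => al s z * ((if σ ∈ D then 1 else 0) *
    (br (y (some a)) * (1 - br (y (some (fl a j))))))]
  have : ∀ a : Fin m → Bool, Ex (fun y : Option (Fin m → Bool) → Bool =>
      br (y (some a)) * (1 - br (y (some (fl a j))))) = 1 / 4 := by
    intro a
    have hne : some (fl a j) ≠ some a := by
      intro h
      have := congrFun (Option.some.inj h) j
      rw [fl_same] at this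
      simp at this
    rw [Ex_bit (some a) _ (fun y => by rw [fl_ne y hne]), Ex_sub, Ex_const]
    have := Ex_bit (some (fl a j)) (fun _ => 1) fun _ => rfl
    simp only [mul_one, Ex_const] at this
    rw [this]
    norm_num
  simp only [Ex_mul, this, Ex_const, Ex_mul', Ex_al, Ex_mem, Fintype.card_fin]
  ring

lemma bd_target : ∑ o, bd (ind (adr s q m D)) (Sum.inr (Sum.inr (Sum.inr o))) ≤
    mu (adr s q m D) := by
  simp only [bd]
  rw [← Ex_sum, mu_eq]
  refine Ex_mono fun x => ?_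
  rw [sum_eq_single (tg q m D (x ∘ Sum.inr ∘ Sum.inl) (x ∘ Sum.inr ∘ Sum.inr ∘ Sum.inl))]
  · exact (is01_ind _).ed_le _ _
  · intro o _ ho
    have e := fl_comp (Sum.inr ∘ Sum.inr ∘ Sum.inr : Option (Fin m → Bool) → Idx s q m)
      (fun _ _ h => by simpa using h) x o
    simp only [Function.comp_apply] at e
    have : ind (adr s q m D) (fl x (Sum.inr (Sum.inr (Sum.inr o)))) = ind (adr s q m D) x := by
      rw [ind_adr, ind_adr, e, fl_comp' _ x _ (by simp), fl_comp' _ x _ (by simp),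
        fl_comp' _ x _ (by simp), fl_ne _ (Ne.symm ho)]
    rw [ed, this]
    rcases is01_ind (adr s q m D) x with h | h <;> simp [h]
  · simp

lemma totalInfl_adr : totalInfl (adr s q m D) ≤
    2 * mu (adr s q m D) * ((s + 1) + (q + m * (D.card / 2 ^ q) / 2)) := by
  have h0 : ∀ i, bd (ind (adr s q m D)) i ≤ mu (adr s q m D) := fun i => by
    rw [mu_eq]; exact (is01_ind _).bd_le i
  simp only [totalInfl, infl_eq, ← mul_sum, Fintype.sum_sum_type, bd_address]
  have h1 : ∑ i : Fin s, bd (ind (adr s q m D)) (Sum.inl i) ≤ s * mu (adr s q m D) := by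
    simpa using sum_le_card_nsmul univ _ _ fun i _ => h0 (Sum.inl i)
  have h2 : ∑ i : Fin q, bd (ind (adr s q m D)) (Sum.inr (Sum.inl i)) ≤ q * mu (adr s q m D) := by
    simpa using sum_le_card_nsmul univ _ _ fun i _ => h0 (Sum.inr (Sum.inl i))
  have h3 := bd_target s q m D
  have h4 : (1 : ℝ) / 2 ^ s = 2 * mu (adr s q m D) := by
    rw [mu_adr, pow_succ]
    field_simp
  simp only [sum_const, card_univ, Fintype.card_fin, nsmul_eq_mul]
  rw [h4]
  nlinarith

lemma disagree_adr (g : (Idx s q m → Bool) → Bool) (J : Finset (Idx s q m))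
    (hg : IsJuntaOn g J) : mu (adr s q m D) * (D.card / 2 ^ q) * (1 - J.card / 2 ^ m) ≤
      disagree (adr s q m D) g := by
  classical
  let T : (Fin m → Bool) → Idx s q m := fun a => Sum.inr (Sum.inr (Sum.inr (some a)))
  let B : Finset (Fin m → Bool) := univ.filter fun a => T a ∉ J
  let bad : (Idx s q m → Bool) → ℝ := fun x => al s (x ∘ Sum.inl) *
    ((if x ∘ Sum.inr ∘ Sum.inl ∈ D then 1 else 0) *
      (if x ∘ Sum.inr ∘ Sum.inr ∘ Sum.inl ∈ B then 1 else 0))
  let φ : (Idx s q m → Bool) → (Idx s q m → Bool) := fun x =>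
    fl x (T (x ∘ Sum.inr ∘ Sum.inr ∘ Sum.inl))
  have p1 : ∀ x, φ x ∘ Sum.inl = x ∘ Sum.inl := fun x => fl_comp' _ x _ (by simp [T])
  have p2 : ∀ x, φ x ∘ Sum.inr ∘ Sum.inl = x ∘ Sum.inr ∘ Sum.inl :=
    fun x => fl_comp' _ x _ (by simp [T])
  have p3 : ∀ x, φ x ∘ Sum.inr ∘ Sum.inr ∘ Sum.inl = x ∘ Sum.inr ∘ Sum.inr ∘ Sum.inl :=
    fun x => fl_comp' _ x _ (by simp [T])
  have hφ : ∀ x, φ (φ x) = x := by
    intro x
    change fl (φ x) (T (φ x ∘ Sum.inr ∘ Sum.inr ∘ Sum.inl)) = x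
    rw [p3]
    exact fl_fl _ _
  let dis : (Idx s q m → Bool) → ℝ := fun x => if adr s q m D x ≠ g x then 1 else 0
  have h1 : Ex bad ≤ 2 * Ex dis := by
    rw [two_mul]
    nth_rewrite 2 [← Ex_invol φ hφ dis]
    rw [← Ex_add]
    refine Ex_mono fun x => ?_
    have n1 : 0 ≤ dis x := by simp only [dis]; split_ifs <;> norm_num
    have n2 : 0 ≤ dis (φ x) := by simp only [dis]; split_ifs <;> norm_num
    simp only [bad, al]
    split_ifs with c1 c2 c3
    · have e1 : g (φ x) = g x := hg _ _ fun j hj => fl_ne x fun e => (mem_filter.1 c3).2 (e ▸ hj)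
      have e2 : adr s q m D (φ x) = !adr s q m D x := by
        simp only [adr, p1, p2, p3, c1, tg, c2, if_true, decide_true, Bool.true_and]
        exact fl_same x _
      simp only [dis, e1, e2]
      cases adr s q m D x <;> cases g x <;> simp
    all_goals simp only [mul_zero, zero_mul]; linarith
  have h2 : Ex bad = 1 / 2 ^ s * (D.card / 2 ^ q * (B.card / 2 ^ m)) := by
    rw [Ex4 s q m fun z σ a _ => al s z * ((if σ ∈ D then 1 else 0) * (if a ∈ B then 1 else 0))]
    simp only [Ex_mul, Ex_const, Ex_mul', Ex_al, Ex_mem, Fintype.card_fin]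
  have h3 : (2 : ℝ) ^ m ≤ B.card + J.card := by
    have a1 : (univ.filter fun a => T a ∈ J).card ≤ J.card :=
      card_le_card_of_injOn T (fun a ha => (mem_filter.1 ha).2) fun a _ b _ h => by
        simpa [T] using h
    have a2 := card_filter_add_card_filter_not (s := univ) fun a => T a ∈ J
    rw [card_univ, Fintype.card_fun, Fintype.card_bool, Fintype.card_fin] at a2
    have a3 : 2 ^ m ≤ B.card + J.card := by
      simp only [B]
      omega
    exact_mod_cast a3
  have h4 : 1 - (J.card : ℝ) / 2 ^ m ≤ B.card / 2 ^ m := by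
    rw [sub_le_iff_le_add, ← add_div, le_div_iff₀ (by positivity)]
    linarith
  have h5 : disagree (adr s q m D) g = Ex dis := prob_eq _
  rw [h5, mu_adr]
  calc 1 / 2 ^ (s + 1) * ((D.card : ℝ) / 2 ^ q) * (1 - J.card / 2 ^ m)
      ≤ 1 / 2 ^ (s + 1) * ((D.card : ℝ) / 2 ^ q) * (B.card / 2 ^ m) := by gcongr
    _ = Ex bad / 2 := by rw [h2, pow_succ]; field_simp
    _ ≤ Ex dis := by linarith

end Ex

section Transfer
variable {α β : Type} [Fintype α] [DecidableEq α] [Fintype β] [DecidableEq β] (e : α ≃ β)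

lemma prob_equiv (p : (α → Bool) → Prop) [DecidablePred p] :
    prob (fun x : β → Bool => p (x ∘ e)) = prob p := by
  rw [prob_eq, prob_eq, Ex, Ex, Fintype.card_congr e]
  congr 1
  exact Equiv.sum_comp (e.symm.arrowCongr (Equiv.refl Bool)) (fun x => if p x then (1 : ℝ) else 0)

lemma totalInfl_equiv (f : (α → Bool) → Bool) :
    totalInfl (fun x : β → Bool => f (x ∘ e)) = totalInfl f := by
  rw [totalInfl, totalInfl, ← Equiv.sum_comp e]
  refine sum_congr rfl fun i _ => ?_
  rw [infl, infl, ← prob_equiv e]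
  congr 1
  funext x
  have : flipAt x (e i) ∘ e = flipAt (x ∘ e) i := fl_comp e e.injective x i
  rw [this]

end Transfer

theorem lower (c ε C : ℝ) (hc : c < 2) (hε : 0 < ε) (hε1 : ε < 1) (t : ℕ) (ht : 1 ≤ t) :
    ∃ (M : ℝ) (n : ℕ) (f : (Fin n → Bool) → Bool), 0 < M ∧ 1 ≤ n ∧ mu f = 1 / 2 ^ t ∧
      totalInfl f ≤ 2 * mu f * (logb 2 (1 / mu f) + M) ∧
      ∀ (g : (Fin n → Bool) → Bool) (J : Finset (Fin n)), IsJuntaOn g J →
        disagree f g ≤ ε * mu f →
        C * logb 2 (1 / mu f) * (2 : ℝ) ^ (c * M / ε) < J.card := by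
  classical
  obtain ⟨s, rfl⟩ : ∃ s, t = s + 1 := ⟨t - 1, by omega⟩
  set c' := max c 1 with hc'
  have hc1 : 1 ≤ c' := le_max_right _ _
  have hc2 : c' < 2 := max_lt hc (by norm_num)
  have hβ : ε < min 1 (2 * ε / c') := lt_min hε1 (by
    rw [lt_div_iff₀ (by linarith)]
    nlinarith)
  obtain ⟨q, hq⟩ := exists_pow_lt_of_lt_one (sub_pos.2 hβ) (by norm_num : (1 / 2 : ℝ) < 1)
  have h2q : (0 : ℝ) < 2 ^ q := by positivity
  let d : ℕ := ⌊ε * 2 ^ q⌋₊ + 1
  have hd1 : ε * 2 ^ q < d := by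
    simp only [d]
    push_cast
    exact Nat.lt_floor_add_one _
  have hd2 : (d : ℝ) ≤ ε * 2 ^ q + 1 := by
    simp only [d]
    push_cast
    linarith [Nat.floor_le (by positivity : 0 ≤ ε * 2 ^ q)]
  set δ : ℝ := d / 2 ^ q with hδ
  have hδ1 : ε < δ := by rw [hδ, lt_div_iff₀ h2q]; exact hd1
  have hδ2 : δ < min 1 (2 * ε / c') := by
    have : δ ≤ ε + (1 / 2) ^ q := by
      rw [hδ, div_le_iff₀ h2q, add_mul, ← mul_pow]
      simpa using hd2
    linarith
  have hδ3 : δ < 1 := hδ2.trans_le (min_le_left _ _)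
  have hδ4 : c' * δ / (2 * ε) < 1 := by
    have := hδ2.trans_le (min_le_right _ _)
    rw [lt_div_iff₀ (by linarith)] at this
    rw [div_lt_one (by linarith)]
    linarith
  have hdq : d ≤ (univ : Finset (Fin q → Bool)).card := by
    rw [card_univ, Fintype.card_fun, Fintype.card_bool, Fintype.card_fin]
    rw [hδ, div_lt_one h2q] at hδ3
    exact_mod_cast hδ3.le
  obtain ⟨D, -, hD⟩ := exists_subset_card_eq hdq
  set γ := c' * δ / (2 * ε) with hγ
  have hη : 0 < 1 - ε / δ := by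
    rw [sub_pos, div_lt_one (by linarith)]
    exact hδ1
  have hb : 1 < (2 : ℝ) ^ (1 - γ) := one_lt_rpow (by norm_num) (by linarith)
  obtain ⟨m, hm⟩ := pow_unbounded_of_one_lt
    (max 1 (|C| * (s + 1) * (2 : ℝ) ^ (c' * q / ε) / (1 - ε / δ))) hb
  have hm0 : 0 < m := by
    rcases Nat.eq_zero_or_pos m with h | h
    · rw [h, pow_zero] at hm
      exact absurd hm (not_lt.2 (le_max_left _ _))
    · exact h
  have hm1 := (le_max_right _ _).trans_lt hm
  let e := Fintype.equivFin (Idx s q m)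
  have hmu : mu (fun x => adr s q m D (x ∘ e)) = 1 / 2 ^ (s + 1) := by
    rw [← mu_adr s q m D]
    exact prob_equiv e fun x => adr s q m D x = true
  have hlog : logb 2 (1 / (1 / 2 ^ (s + 1) : ℝ)) = s + 1 := by
    rw [one_div_one_div, logb_pow, logb_self_eq_one (by norm_num)]
    simp
  have hM : (0 : ℝ) < q + m * δ / 2 := by
    have : (0 : ℝ) < m := by exact_mod_cast hm0
    have : 0 < δ := by linarith
    positivity
  refine ⟨q + m * δ / 2, Fintype.card (Idx s q m), fun x => adr s q m D (x ∘ e), hM,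
    Fintype.card_pos_iff.2 ⟨Sum.inr (Sum.inr (Sum.inr none))⟩, hmu, ?_, ?_⟩
  · rw [totalInfl_equiv, hmu, hlog, ← mu_adr s q m D, hδ, ← hD]
    exact totalInfl_adr s q m D
  · intro g J hg hdis
    have h1 := disagree_adr s q m D (fun y => g (y ∘ e.symm)) (J.map e.symm.toEmbedding) (by
      intro x y h
      exact hg _ _ fun j hj => h _ (mem_map_of_mem _ hj))
    have h2 : disagree (adr s q m D) (fun y => g (y ∘ e.symm)) =
        disagree (fun x => adr s q m D (x ∘ e)) g := by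
      rw [disagree, disagree, ← prob_equiv e]
      congr 1
      funext x
      simp [Function.comp_assoc]
    rw [h2, card_map, hD, ← hδ, mu_adr] at h1
    rw [hmu] at hdis
    rw [hmu, hlog]
    have h3 : δ * (1 - J.card / 2 ^ m) ≤ ε := by
      have := h1.trans hdis
      rw [mul_assoc, mul_comm ε] at this
      exact le_of_mul_le_mul_left this (by positivity)
    have h4 : (1 - ε / δ) * 2 ^ m ≤ J.card := by
      have : 1 - ε / δ ≤ J.card / 2 ^ m := by
        have : 1 - J.card / 2 ^ m ≤ ε / δ := by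
          rw [le_div_iff₀ (by linarith)]
          linarith
        linarith
      rwa [le_div_iff₀ (by positivity)] at this
    refine lt_of_lt_of_le ?_ h4
    have h5 : (2 : ℝ) ^ (c * (q + m * δ / 2) / ε) ≤ (2 : ℝ) ^ (c' * q / ε) * (2 : ℝ) ^ (γ * m) := by
      rw [← rpow_add (by norm_num)]
      apply rpow_le_rpow_of_exponent_le (by norm_num)
      have : c' * q / ε + γ * m = c' * (q + m * δ / 2) / ε := by
        rw [hγ]; field_simp
      rw [this]
      gcongr
      exact le_max_left _ _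
    have h6 : ((2 : ℝ) ^ (1 - γ)) ^ m * (2 : ℝ) ^ (γ * m) = 2 ^ m := by
      rw [← rpow_natCast, ← rpow_mul (by norm_num), ← rpow_add (by norm_num), ← rpow_natCast]
      congr 1
      ring
    rw [div_lt_iff₀ hη] at hm1
    have h7 : (0 : ℝ) < (2 : ℝ) ^ (γ * m) := by positivity
    calc C * (s + 1) * (2 : ℝ) ^ (c * (q + m * δ / 2) / ε)
        ≤ |C| * (s + 1) * ((2 : ℝ) ^ (c' * q / ε) * (2 : ℝ) ^ (γ * m)) := by
          gcongr
          exact le_abs_self C
      _ = |C| * (s + 1) * (2 : ℝ) ^ (c' * q / ε) * (2 : ℝ) ^ (γ * m) := by ring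
      _ < ((2 : ℝ) ^ (1 - γ)) ^ m * (1 - ε / δ) * (2 : ℝ) ^ (γ * m) := by gcongr
      _ = (1 - ε / δ) * 2 ^ m := by rw [← h6]; ring

end Pool.Agent.H73Z.Junta
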