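import Pool.Agent.H73Z.Junta.Block
import Pool.Agent.H73Z.Junta.Defs

/-! The junta theorem for sparse functions with nearly minimal total influence. -/

set_option autoImplicit false
set_option linter.unusedSectionVars false

namespace Pool.Agent.H73Z.Junta

open Finset Real Pool.Agent.H73Z.JuntaDefs

variable {ι : Type} [Fintype ι] [DecidableEq ι]

/-- real indicator -/
def ind (f : (ι → Bool) → Bool) (x : ι → Bool) : ℝ := if f x = true then 1 else 0

lemma is01_ind (f : (ι → Bool) → Bool) : Is01 (ind f) := by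
  intro x
  simp only [ind]
  split_ifs <;> simp

lemma prob_eq (p : (ι → Bool) → Prop) [DecidablePred p] :
    prob p = Ex fun x => if p x then 1 else 0 := by
  simp [prob, Ex]

lemma mu_eq (f : (ι → Bool) → Bool) : mu f = Ex (ind f) := prob_eq _

lemma infl_eq (f : (ι → Bool) → Bool) (i : ι) : infl f i = 2 * bd (ind f) i := by
  rw [infl, prob_eq, two_mul, bd]
  nth_rewrite 2 [← Ex_fl i (ed (ind f) i)]
  rw [← Ex_add]
  refine Ex_congr fun x => ?_
  have : flipAt x i = fl x i := rfl
  simp only [ed, ind, fl_fl, this]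
  cases f x <;> cases f (fl x i) <;> simp

lemma exists_junta (f : (ι → Bool) → Bool) (J : Finset ι) :
    ∃ g, IsJuntaOn g J ∧ disagree f g ≤ 2 * Dv Jᶜ (ind f) := by
  classical
  refine ⟨fun x => decide (1 / 2 ≤ den J (ind f) x), ?_, ?_⟩
  · intro x y h
    have : y = mg J x y := by
      funext j
      by_cases hj : j ∈ J
      · simp [mg, hj, h j hj]
      · simp [mg, hj]
    simp only
    rw [this, dep_den J (ind f) x y]
  · have d1 : Dep J (fun x => if 1 / 2 ≤ den J (ind f) x then (-1 : ℝ) else 1) :=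
      fun x y => by simp only [dep_den J (ind f) x y]
    have d2 : Dep J (fun x => 1 - den J (ind f) x) :=
      fun x y => by simp only [dep_den J (ind f) x y]
    have e1 : disagree f (fun x => decide (1 / 2 ≤ den J (ind f) x)) =
        Ex (fun x => if 1 / 2 ≤ den J (ind f) x then (1 : ℝ) else 0) +
        Ex (fun x => ind f x * if 1 / 2 ≤ den J (ind f) x then (-1 : ℝ) else 1) := by
      rw [disagree, prob_eq, ← Ex_add]
      refine Ex_congr fun x => ?_
      by_cases h : 1 / 2 ≤ den J (ind f) x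
      · simp only [h, ind]
        cases f x <;> simp
      · simp only [h, ind]
        cases f x <;> simp
    have e2 : Dv Jᶜ (ind f) = Ex fun x => ind f x * (1 - den J (ind f) x) := by
      rw [Dv, compl_compl]
      refine Ex_congr fun x => ?_
      rcases is01_ind f x with h | h <;> simp [h]
    rw [e1, e2, ← tower_mul d1, ← tower_mul d2, ← Ex_add, ← Ex_mul]
    refine Ex_mono fun x => ?_
    have n1 := den_nonneg (is01_ind f).nonneg J x
    have n2 := (is01_ind f).den_le_one J x
    split_ifs with h <;> nlinarith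

theorem upper (M ε : ℝ) (hM : 0 < M) (hε : 0 < ε) (f : (ι → Bool) → Bool) (hμ : 0 < mu f)
    (hI : totalInfl f ≤ 2 * mu f * (logb 2 (1 / mu f) + M)) :
    ∃ (g : (ι → Bool) → Bool) (J : Finset ι), IsJuntaOn g J ∧ disagree f g ≤ ε * mu f ∧
      (J.card : ℝ) ≤ 2 ^ 33 * logb 2 (1 / mu f) * (2 : ℝ) ^ (2 ^ 33 * M / ε) := by
  classical
  have hg := is01_ind f
  have hμ1 : mu f ≤ 1 := by
    rw [mu_eq, ← Ex_const (ι := ι) 1]
    exact Ex_mono hg.le_one
  set t := logb 2 (1 / mu f) with ht
  have ht0 : 0 ≤ t := logb_nonneg (by norm_num) (by rw [le_div_iff₀ hμ]; linarith)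
  by_cases c1 : 1 ≤ ε
  · refine ⟨fun _ => false, ∅, fun _ _ _ => rfl, ?_, by rw [card_empty, Nat.cast_zero]; positivity⟩
    have : disagree f (fun _ => false) = mu f := by
      simp [disagree, mu]
    rw [this]
    nlinarith
  by_cases c2 : 1 - mu f ≤ ε * mu f
  · refine ⟨fun _ => true, ∅, fun _ _ _ => rfl, ?_, by rw [card_empty, Nat.cast_zero]; positivity⟩
    have : disagree f (fun _ => true) = 1 - mu f := by
      rw [disagree, prob_eq, mu_eq, ← Ex_const (ι := ι) 1, ← Ex_sub, Ex_const]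
      refine Ex_congr fun x => ?_
      simp only [ind]
      cases f x <;> simp
    rwa [this]
  push Not at c1 c2
  have hl1 := log_two_gt_d9
  have hl2 := log_two_lt_d9
  have htε : ε ≤ t := by
    rw [ht, le_logb_iff_rpow_le (by norm_num) (by positivity)]
    have h1 := rpow_one_add_le_one_add_mul_self (s := 1) (p := ε) (by norm_num) hε.le c1.le
    rw [one_add_one_eq_two, mul_one] at h1
    refine h1.trans ?_
    rw [le_div_iff₀ hμ]
    linarith
  have hsum : ∑ i, bd (ind f) i ≤ mu f * (t + M) := by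
    simp only [totalInfl, infl_eq, ← mul_sum] at hI
    linarith
  have hexc : exc (ind f) ≤ mu f * M := by
    have h1 : t * log 2 = - log (mu f) := by
      rw [ht, logb, div_mul_cancel₀ _ (by linarith), one_div, log_inv]
    rw [exc, Phi_empty, ← mu_eq]
    have h2 := mul_le_mul_of_nonneg_right hsum (by linarith : 0 ≤ log 2)
    have h3 : mu f * M * log 2 ≤ mu f * M := mul_le_of_le_one_right (by positivity) (by linarith)
    nlinarith
  let k : ℕ := ⌈600 * M / ε⌉₊
  have hk : 0 < k := Nat.ceil_pos.2 (by positivity)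
  have hk1 : 600 * M / ε ≤ k := Nat.le_ceil _
  have hk2 : (k : ℝ) ≤ 600 * M / ε + 1 := (Nat.ceil_lt_add_one (by positivity)).le
  have hk' : (0 : ℝ) < k := by exact_mod_cast hk
  set a : ℝ := 2 ^ k with ha
  have ha2 : 2 ≤ a := by
    calc (2 : ℝ) = 2 ^ 1 := by norm_num
      _ ≤ 2 ^ k := pow_le_pow_right₀ (by norm_num) hk
  have ha0 : 0 < a := by linarith
  have hka : (k : ℝ) ≤ a := by
    rw [ha]
    exact_mod_cast (Nat.lt_two_pow_self).le
  have h4 : a ^ 2 = 4 ^ k := by rw [ha, ← pow_mul, mul_comm, pow_mul]; norm_num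
  have h3a : (3 : ℝ) ^ k ≤ a ^ 2 := by
    rw [h4]
    exact pow_le_pow_left₀ (by norm_num) (by norm_num) k
  have hea : exp k ≤ a ^ 2 := by
    rw [h4, ← exp_one_pow]
    exact pow_le_pow_left₀ (exp_pos 1).le (by linarith [exp_one_lt_d9]) k
  have h24 : 24 ≤ a ^ 5 := le_trans (by norm_num) (pow_le_pow_left₀ (by norm_num) ha2 5)
  let J : Finset ι := univ.filter fun j => 1 / a ^ 32 * mu f < bd (ind f) j
  have hD := Dv_low hg (mu_eq f ▸ hμ) Jᶜ hk (τ := 1 / a ^ 8) (θ := 1 / a ^ 32) (by positivity)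
    (by
      apply one_div_le_one_div_of_le (by norm_num)
      exact ha2.trans (le_self_pow₀ (by linarith) (by norm_num)))
    (by
      calc 1 / a ^ 8 * exp k ≤ 1 / a ^ 8 * a ^ 2 := by gcongr
        _ = (1 / (a * a ^ 2)) ^ 2 := by field_simp
        _ ≤ (1 / (k * 3 ^ k)) ^ 2 := by gcongr)
    (by positivity)
    (by
      calc 24 * k * exp k * (1 / a ^ 32) ≤ a ^ 5 * a * a ^ 2 * (1 / a ^ 32) := by gcongr
        _ = (1 / a ^ 8) ^ 3 := by field_simp)
    (by
      intro j hj
      rw [← mu_eq]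
      simpa [J] using hj)
  obtain ⟨g, g1, g2⟩ := exists_junta f J
  refine ⟨g, J, g1, g2.trans ?_, ?_⟩
  · have h1 : 300 * exc (ind f) / k ≤ 300 * (mu f * M) / k := by gcongr
    have h2 : 300 * (mu f * M) / k ≤ ε * mu f / 2 := by
      rw [div_le_iff₀ hk']
      rw [div_le_iff₀ hε] at hk1
      nlinarith
    linarith
  · have h1 : J.card * (1 / a ^ 32 * mu f) ≤ mu f * (t + M) := by
      refine le_trans ?_ hsum
      rw [← nsmul_eq_mul]
      refine (card_nsmul_le_sum J _ _ fun j hj => (mem_filter.1 hj).2.le).trans ?_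
      exact sum_le_sum_of_subset_of_nonneg (subset_univ _) fun j _ _ => hg.bd_nonneg j
    have h2 : (J.card : ℝ) ≤ (t + M) * a ^ 32 := by
      have : J.card * (1 / a ^ 32 * mu f) = mu f * (J.card / a ^ 32) := by ring
      rw [this] at h1
      have := le_of_mul_le_mul_left h1 hμ
      rwa [div_le_iff₀ (by positivity)] at this
    set r := M / ε with hr
    have hr0 : 0 < r := by positivity
    have h5 : r ≤ (2 : ℝ) ^ r := by
      have b1 := add_one_le_exp (log 2 * r)
      rw [rpow_def_of_pos (by norm_num)]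
      have b2 : exp (log 2 * r) = exp (log 2 * r / 2) ^ 2 := by
        rw [← exp_nat_mul]; congr 1; push_cast; ring
      have b3 := add_one_le_exp (log 2 * r / 2)
      have b4 : (log 2 * r / 2 + 1) ^ 2 ≤ exp (log 2 * r / 2) ^ 2 :=
        pow_le_pow_left₀ (by positivity) b3 2
      rw [b2]
      nlinarith [sq_nonneg (log 2 * r / 2 - 1)]
    have h6 : 1 ≤ (2 : ℝ) ^ r := one_le_rpow (by norm_num) hr0.le
    have h7 : t + M ≤ 2 * t * (2 : ℝ) ^ r := by
      have : M = ε * r := by rw [hr]; field_simp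
      have b1 : ε * r ≤ t * (2 : ℝ) ^ r := mul_le_mul htε h5 hr0.le ht0
      nlinarith
    have h8 : a ^ 32 ≤ 2 ^ 32 * (2 : ℝ) ^ (19200 * r) := by
      rw [ha, ← pow_mul, ← rpow_natCast, ← rpow_natCast, ← rpow_add (by norm_num)]
      apply rpow_le_rpow_of_exponent_le (by norm_num)
      rw [mul_div_assoc] at hk2
      push_cast
      linarith
    have h9 : (2 : ℝ) ^ r * (2 : ℝ) ^ (19200 * r) ≤ (2 : ℝ) ^ (2 ^ 33 * M / ε) := by
      rw [← rpow_add (by norm_num), mul_div_assoc]
      apply rpow_le_rpow_of_exponent_le (by norm_num)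
      nlinarith
    calc (J.card : ℝ) ≤ (2 * t * (2 : ℝ) ^ r) * (2 ^ 32 * (2 : ℝ) ^ (19200 * r)) :=
          h2.trans (by gcongr)
      _ = 2 ^ 33 * t * ((2 : ℝ) ^ r * (2 : ℝ) ^ (19200 * r)) := by ring
      _ ≤ _ := by gcongr

end Pool.Agent.H73Z.Junta
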